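import Pool.Agent.P.MP_d66c6d_pr.D.Iface
import Pool.Agent.P.MP_d66c6d_pr.S.Surr

/-! Step BLK of the carpet project. -/

namespace Pool.Agent.P.MP_d66c6d_pr

open MeasureTheory ProbabilityTheory Set Metric Filter Topology
open scoped ENNReal

theorem p_BLK :
    S_BLK := by
  intro T z y w ρ ξ hT hρ hξ hy hw hJ K hK henc
  have hdiam : ρ ≤ diam K := by
    by_contra hlt
    push Not at hlt
    obtain ⟨c, hc⟩ : ∃ c : ℂ, K ∩ closedBall z (9 * ρ) ⊆ ball c ρ := by
      rcases (K ∩ closedBall z (9 * ρ)).eq_empty_or_nonempty with h | ⟨k, hk⟩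
      · exact ⟨z, by rw [h]; exact empty_subset _⟩
      · exact ⟨k, fun x hx => lt_of_le_of_lt
          (dist_le_diam_of_mem (hT K hK).isBounded hx.1 hk.1) hlt⟩
    have hf := fill_subset_ball hρ hc
    have n1 : ‖(ρ : ℂ)‖ = ρ := by rw [Complex.norm_real, Real.norm_of_nonneg hρ.le]
    have h1 : z + ρ ∈ ball c ρ := hf (henc (by
      rw [mem_closedBall, dist_eq_norm, add_sub_cancel_left, n1]))
    have h2 : z - ρ ∈ ball c ρ := hf (henc (by
      rw [mem_closedBall, dist_eq_norm, sub_sub_cancel_left, norm_neg, n1]))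
    have h3 : dist (z + ρ) (z - ρ) = 2 * ρ := by
      rw [dist_eq_norm, show z + ρ - (z - ρ) = 2 * (ρ : ℂ) by ring, norm_mul, n1]
      simp
    have h4 := dist_triangle_right (z + ρ) (z - ρ) c
    rw [mem_ball] at h1 h2
    linarith
  obtain ⟨γ, hγ⟩ := hJ
  have hd : Disjoint (range γ) (K ∩ closedBall z (9 * ρ)) := by
    refine Set.disjoint_left.2 ?_
    rintro _ ⟨t, rfl⟩ h
    exact Set.disjoint_left.1 (Free.disjoint hK (hξ.trans hdiam)) (hγ t) h.1
  have hw2 : w ∈ fill (K ∩ closedBall z (9 * ρ)) :=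
    fill_conn (isPreconnected_range γ.continuous) hd γ.source_mem_range γ.target_mem_range (henc hy)
  rw [mem_closedBall, not_le] at hw
  have h5 : K ∩ closedBall z (9 * ρ) ⊆ ball z (dist w z) := fun x hx =>
    lt_of_le_of_lt (mem_closedBall.1 hx.2) hw
  have h6 := fill_subset_ball (by linarith) h5 hw2
  exact lt_irrefl _ (mem_ball.1 h6)

end Pool.Agent.P.MP_d66c6d_pr
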