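import Pool.Agent.P.MP_d66c6d_pr.D.Iface

/-! Step CZN of the carpet project. -/

namespace Pool.Agent.P.MP_d66c6d_pr

open MeasureTheory ProbabilityTheory Set Metric Filter Topology
open scoped ENNReal

namespace CznA

/-- The set `B` is covered by sets of small cost radius. -/
def ZC (G : Set ℂ) (ε t : ℝ) (B : Set ℂ) : Prop :=
  ∃ (k : ℕ) (x : Fin k → ℂ) (ρ : Fin k → ℝ) (d : Fin k → ℕ), ∑ i, ((d i : ℝ) + 1) ≤ t ∧
    (∀ i, 0 ≤ ρ i ∧ ρ i < ε ∧ closedBall (x i) (ρ i) ⊆ G) ∧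
    B ⊆ ⋃ i, closure (Reach G ε (d i) (closedBall (x i) (ρ i)))

theorem ZC.mono {G G' B B' : Set ℂ} {ε t : ℝ} (h : ZC G ε t B) (hG : G ⊆ G') (hB : B' ⊆ B) :
    ZC G' ε t B' := by
  obtain ⟨k, x, ρ, d, h1, h2, h3⟩ := h
  refine ⟨k, x, ρ, d, h1, fun i => ⟨(h2 i).1, (h2 i).2.1, (h2 i).2.2.trans hG⟩,
    hB.trans (h3.trans (iUnion_mono fun i => closure_mono ?_))⟩
  rintro y ⟨γ, g1, g2, g3, g4⟩
  exact ⟨γ, g1, g2, g3.trans hG, g4⟩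

theorem ZC.iUnion {G : Set ℂ} {ε t : ℝ} {J : ℕ} {B : Fin J → Set ℂ} (h : ∀ i, ZC G ε t (B i)) :
    ZC G ε (J * t) (⋃ i, B i) := by
  choose k x ρ d h1 h2 h3 using h
  let e := (Fintype.equivFin (Σ i, Fin (k i))).symm
  refine ⟨_, fun j => x (e j).1 (e j).2, fun j => ρ (e j).1 (e j).2, fun j => d (e j).1 (e j).2,
    ?_, fun j => h2 _ _, ?_⟩
  · rw [e.sum_comp (fun s => ((d s.1 s.2 : ℝ) + 1)), Fintype.sum_sigma]
    exact (Finset.sum_le_sum fun i _ => h1 i).trans (by simp)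
  · refine iUnion_subset fun i => (h3 i).trans (iUnion_subset fun j => ?_)
    refine subset_iUnion_of_subset (e.symm ⟨i, j⟩) ?_
    simp only
    rw [e.apply_symm_apply]

theorem exists_min {J : ℕ} (f : Fin J → ℝ) (hf : ∀ i, 0 < f i) : ∃ m > (0 : ℝ), ∀ i, m ≤ f i := by
  rcases isEmpty_or_nonempty (Fin J) with h | h
  · exact ⟨1, one_pos, fun i => h.elim i⟩
  · obtain ⟨i, hi⟩ := Finite.exists_min f
    exact ⟨f i, hf i, hi⟩

theorem pick {R : ℝ} {X : Set (Set ℂ)} {J : ℕ} {𝒯 : Fin J → Set (Set ℂ)} (h : Compl R X 𝒯)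
    (P : Br → Prop) (Q : Fin J → Br → Prop)
    (hP : ∀ ξ > (0 : ℝ), ∃ γ : Br, CrsG 0 1 γ ∧ range γ ⊆ Free ξ X ∧ P γ)
    (hQ : ∀ (i : Fin J) (γ γ' : Br), P γ → range γ' ∩ closedBall 0 (13 / 10) ⊆ range γ → Q i γ') :
    ∃ i, ∀ ξ > (0 : ℝ), ∃ γ : Br, γ 0 ∈ closedBall (0 : ℂ) (1 / 2) ∧ γ 1 ∈ (ball (0 : ℂ) R)ᶜ ∧
      range γ ⊆ Free ξ (𝒯 i) ∧ Q i γ := by
  by_contra hn
  simp only [not_exists, not_forall] at hn
  choose ξ hξ hn using hn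
  obtain ⟨m, hm, hmin⟩ := exists_min ξ hξ
  obtain ⟨ξ', hξ', harm⟩ := h.arm m hm
  obtain ⟨γ, ⟨g1, g2⟩, g3, g4⟩ := hP ξ' hξ'
  obtain ⟨i, γ', f1, f2, f3, f4⟩ := harm γ (closedBall_subset_ball (by norm_num) g1)
    (by simpa using g2) g3
  exact hn i γ' ⟨f1 ▸ g1, f2, f3.trans (Free_mono (hmin i) Subset.rfl), hQ i γ γ' g4 f4⟩

end CznA

open CznA in
theorem p_CZN (hDMON : S_DMON) :
    S_CZN := by
  refine ⟨fun R X J 𝒯 h => ⟨fun ε t hZ ξ hξ => ?_, fun ε t hN => ?_, fun δ hδ hB => ?_⟩,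
    fun R V T hT h3 hR ε t hZ ξ hξ => ?_⟩
  · have h0 : 0 < min ξ (1 / 25) := lt_min hξ (by norm_num)
    choose ξ' hξ' hZ using fun i => hZ i _ h0
    obtain ⟨m, hm, hmin⟩ := exists_min ξ' hξ'
    obtain ⟨ξ'', hξ'', harm⟩ := h.arm m hm
    refine ⟨ξ'', hξ'', ?_⟩
    have h1 : ∀ i, ZC (Free ξ X ∩ ball 0 (5 / 4 * 1)) ε t
        (Arm (Free (ξ' i) (𝒯 i)) (ball 0 R)ᶜ 0 1) := fun i => by
      refine ZC.mono (hZ i) (fun z hz => ⟨?_, hz.2⟩) Subset.rfl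
      exact Free_mono (min_le_left _ _) Subset.rfl ((h.same i).symm.free isOpen_ball h0
        (min_le_right _ _) ⟨hz.1, ball_subset_ball (by norm_num) hz.2⟩)
    refine (ZC.iUnion h1).mono Subset.rfl ?_
    rintro y ⟨hy, w, hw, hj⟩
    obtain ⟨γ, rfl, rfl, g3⟩ := joinedIn_iff_br.1 hj
    obtain ⟨i, γ', f1, f2, f3, -⟩ := harm γ (ball_subset_ball (by norm_num) hy)
      (by simpa using hw) g3
    exact mem_iUnion.2 ⟨i, hy, γ' 1, f2, joinedIn_iff_br.2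
      ⟨γ', f1, rfl, f3.trans (Free_mono (hmin i) Subset.rfl)⟩⟩
  · exact pick h (fun γ => Cov ε t (range γ))
      (fun _ γ => Cov ε t (range γ ∩ closedBall 0 (5 / 4))) hN fun i γ γ' h1 h2 =>
        h1.mono le_rfl le_rfl ((inter_subset_inter_right _
          (closedBall_subset_closedBall (by norm_num))).trans h2)
  · refine pick h (Hug X 0 1 δ) (fun i => Hug (𝒯 i) 0 1 δ) hB fun i γ γ' h1 h2 s s1 s2 => ?_
    obtain ⟨u, hu⟩ := h2 ⟨mem_range_self s, mem_closedBall.2 (by linarith)⟩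
    obtain ⟨w, hw, hd⟩ := mem_thickening_iff.1 (h1 u (hu ▸ s1) (hu ▸ s2))
    rw [hu] at hd
    refine mem_thickening_iff.2 ⟨w, ?_, hd⟩
    have h4 : w ∈ ball (0 : ℂ) (13 / 10) := by
      have := dist_triangle_left w 0 (γ' s)
      rw [mem_ball]
      linarith
    have h5 : w ∈ TT (1 / 25) X ∩ ball 0 (13 / 10) := ⟨hw, h4⟩
    rw [h.same i (1 / 25) (by norm_num) le_rfl] at h5
    exact h5.1
  · obtain ⟨ξ', hξ', hZ⟩ := hZ ξ hξ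
    have hs : Same (ball 0 2) ξ (ins V T) T := fun ζ _ _ => by
      refine Subset.antisymm (inter_subset_inter_left _ (TT_mono le_rfl fun K hK => hK.1)) ?_
      rintro z ⟨hz, hz2⟩
      obtain ⟨K, hK, hd, hzK⟩ := mem_TT.1 hz
      exact ⟨mem_TT.2 ⟨K, ⟨hK, (hT K hK ⟨z, hzK, ball_subset_closedBall hz2⟩).trans h3⟩, hd, hzK⟩,
        hz2⟩
    refine ⟨ξ', hξ', ZC.mono hZ (fun z hz => ⟨?_, hz.2⟩) ?_⟩
    · exact hs.free isOpen_ball hξ le_rfl ⟨hz.1, ball_subset_ball (by norm_num) hz.2⟩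
    · rintro y ⟨hy, w, hw, hj⟩
      exact ⟨hy, w, fun hv => hw (hR hv), hj.mono (Free_mono le_rfl fun K hK => hK.1)⟩

end Pool.Agent.P.MP_d66c6d_pr
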