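import Pool.Agent.P.MP_d66c6d_pr.D.Iface
import Pool.Agent.P.MP_d66c6d_pr.R.Iface
import Pool.Agent.P.MP_d66c6d_pr.T.Iface
import Pool.Agent.P.MP_d66c6d_pr.S.Surr

/-! Step DETT of the carpet project. -/

namespace Pool.Agent.P.MP_d66c6d_pr

open MeasureTheory ProbabilityTheory Set Metric Filter Topology
open scoped ENNReal

namespace DettA

/-- A point with a long arm off a small compact set is outside its filling. -/
theorem out (hFILL : S_FILL) {K G : Set ℂ} {w : ℝ} (hw : 0 < w) (hK : IsCompact K)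
    (hs : ∀ x ∈ K, ∀ y ∈ K, dist x y ≤ 2 * w) (hd : Disjoint G K) {a : ℂ}
    (h : ∃ u ∉ ball a (5 * w), JoinedIn G a u) : a ∉ fill K := by
  obtain ⟨u, hu, hj⟩ := h
  obtain ⟨γ, h0, h1, hγ⟩ := joinedIn_iff_br.1 hj
  intro ha
  have hu' : u ∈ fill K := fill_conn (isPreconnected_range γ.continuous) (hd.mono_left hγ)
    ⟨0, h0⟩ ⟨1, h1⟩ ha
  have hc := (hFILL K hK).2.2.2.2.2.1
  rcases K.eq_empty_or_nonempty with e | ⟨x, hx⟩
  · exact hc ∅ convex_empty e.subset ha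
  · have h2 := hc (closedBall x (2 * w)) (convex_closedBall _ _) fun y hy => hs y hy x hx
    have h3 : dist a x ≤ 2 * w := h2 ha
    have h4 : dist u x ≤ 2 * w := h2 hu'
    refine hu (mem_ball.2 ?_)
    linarith [dist_triangle_right u a x]

theorem one (hRJAN : S_RJAN) (hRDTR : S_RDTR) (hFILL : S_FILL) (T : Set (Set ℂ)) (O : Set ℂ)
    (w ξ : ℝ) (σ : Br) (hT : Tame T) (hw : 0 < w) (hξ : 0 < ξ) (hS : Sm T O w)
    (hO : thickening (4 * w) (range σ) ⊆ O)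
    (h0 : ∃ u ∉ ball (σ 0) (5 * w), JoinedIn (Free ξ T) (σ 0) u)
    (h1 : ∃ u ∉ ball (σ 1) (5 * w), JoinedIn (Free ξ T) (σ 1) u) :
    ∃ σ' : Br, σ' 0 = σ 0 ∧ σ' 1 = σ 1 ∧
      range σ' ⊆ Free ξ T ∩ thickening (4 * w) (range σ) := by
  set T₁ : Set (Set ℂ) := {K ∈ T | ξ ≤ diam K} with hT₁
  set T' : Set (Set ℂ) := {K ∈ T₁ | (cluster T₁ K ∩ thickening (4 * w) (range σ)).Nonempty}
    with hT'
  have s1 : T₁ ⊆ T := fun K hK => hK.1
  have s2 : T' ⊆ T₁ := fun K hK => hK.1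
  obtain ⟨B, hB, e⟩ := hRJAN.2.1 T' (2 * w) ((hT.2 ξ hξ).subset s2)
    (fun K hK => ⟨(hT.1 K hK.1.1).1, (hT.1 K hK.1.1).2.1.isConnected.isPreconnected⟩) (by
      rintro K ⟨hK, z, ⟨L, hL, hz⟩, hzO⟩ x hx y ⟨L', hL', hy⟩
      have key : ∀ M, Lk T₁ K M → ∀ v ∈ M, dist v z < w := fun M hM v hv => by
        by_contra hn
        exact hS z (hO hzO) ⟨L, s1 (Lk.mem hK hL), M, Lk.mono s1 ((Lk.symm hK hL).trans hM),
          ⟨z, hz, rfl⟩, v, hv, hn⟩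
      have k1 := key K .refl x hx
      have k2 := key L' (Lk.mono s2 hL') y hy
      linarith [dist_triangle_right x y z])
  have hj := hRDTR (2 * w) (4 * w) B σ hB (by linarith) (by linarith) fun K hK => by
    have hd : Disjoint (Free ξ T) K := disjoint_left.2 fun v hv hvK => by
      obtain ⟨M, hM, hvM⟩ : v ∈ ⋃₀ T' := e ▸ ⟨K, hK, hvK⟩
      exact disjoint_left.1 (Free.disjoint hM.1.1 hM.1.2) hv hvM
    exact ((hFILL K (hB.cpt K hK)).2.2.2.2.2.2.2.1 _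
      (out hFILL hw (hB.cpt K hK) (hB.small K hK) hd h0) _
      (out hFILL hw (hB.cpt K hK) (hB.small K hK) hd h1)).mono
      (compl_subset_compl.2 (subset_fill K))
  obtain ⟨σ', a0, a1, a2⟩ := joinedIn_iff_br.1 hj
  refine ⟨σ', a0, a1, fun v hv => ⟨?_, (a2 hv).1⟩⟩
  rw [hT.free hξ]
  rintro ⟨K, hK, hvK⟩
  exact (a2 hv).2 (e ▸ ⟨K, ⟨hK, v, ⟨K, .refl, hvK⟩, (a2 hv).1⟩, hvK⟩)

/-- The segment from `-9 / 5` to `9 / 5`. -/
noncomputable def sg : Br := ⟨fun s => ((-9 / 5 + 18 / 5 * (s : ℝ) : ℝ) : ℂ), by fun_prop⟩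

theorem sg0 : sg 0 = ((-9 / 5 : ℝ) : ℂ) := by simp [sg]

theorem sg1 : sg 1 = ((9 / 5 : ℝ) : ℂ) := by
  simp only [sg, ContinuousMap.coe_mk, Set.Icc.coe_one]
  norm_num

theorem far {x : ℝ} (h : 7 / 4 < |x|) : (x : ℂ) ∉ closedBall (0 : ℂ) (7 / 4) := by
  rw [mem_closedBall_zero_iff, Complex.norm_real, Real.norm_eq_abs]
  exact not_le.2 h

theorem arm {x y : ℝ} (h : 1 / 20 ≤ |x - y|) : (x : ℂ) ∉ ball (y : ℂ) (5 * (1 / 100)) := by
  rw [mem_ball, dist_eq_norm, ← Complex.ofReal_sub, Complex.norm_real, Real.norm_eq_abs]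
  linarith

theorem two (hRJAN : S_RJAN) (hRDTR : S_RDTR) (hFILL : S_FILL) (hDMON : S_DMON)
    (T : Set (Set ℂ)) (hT : Tame T) (hS : Sm T (ball 0 2) (1 / 100)) : Nle T 0 1 2 1 := by
  intro ξ hξ
  have s1 : ins (ball 0 (7 / 4)) T ⊆ T := fun K hK => hK.1
  have hT2 : Tame (ins (ball 0 (7 / 4)) T) := hT.mono s1
  have hF : (closedBall (0 : ℂ) (7 / 4))ᶜ ⊆ Free ξ (ins (ball 0 (7 / 4)) T) := by
    rw [hT2.free hξ]
    rintro v hv ⟨K, hK, hvK⟩
    exact hv (ball_subset_closedBall (hK.1.2 hvK))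
  obtain ⟨σ, a0, a1, a2⟩ := one hRJAN hRDTR hFILL _ univ (1 / 100) ξ sg hT2 (by norm_num) hξ
    (fun z _ hj => by
      obtain ⟨K, hK, -, -, ⟨v, hv, rfl⟩, -⟩ := id hj
      exact hS v (ball_subset_ball (by norm_num) (hK.2 hv)) (hj.mono s1 Subset.rfl Subset.rfl))
    (subset_univ _)
    ⟨((-2 : ℝ) : ℂ), sg0 ▸ arm (by norm_num [abs_of_neg]), sg0 ▸ (hRJAN.2.2 0 _ _ _
      (far (by norm_num [abs_of_neg])) (far (by norm_num [abs_of_neg]))).mono hF⟩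
    ⟨((2 : ℝ) : ℂ), sg1 ▸ arm (by norm_num [abs_of_pos]), sg1 ▸ (hRJAN.2.2 0 _ _ _
      (far (by norm_num [abs_of_pos])) (far (by norm_num [abs_of_pos]))).mono hF⟩
  obtain ⟨s, hs⟩ : (0 : ℝ) ∈ range fun s => (σ s).re :=
    intermediate_value_univ 0 1 (Complex.continuous_re.comp σ.continuous)
      ⟨by simp only [Function.comp_apply, a0, sg0, Complex.ofReal_re]; norm_num,
        by simp only [Function.comp_apply, a1, sg1, Complex.ofReal_re]; norm_num⟩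
  have hs' : (σ s).re = 0 := hs
  obtain ⟨γ, c1, c2⟩ := hDMON.2.1 σ 0 1 one_pos ⟨σ s, ⟨s, rfl⟩, by
      obtain ⟨_, ⟨u, rfl⟩, hu⟩ := mem_thickening_iff.1 (a2 ⟨s, rfl⟩).2
      have h1 := Complex.abs_im_le_norm (σ s - sg u)
      have h2 : (σ s - sg u).im = (σ s).im := by simp [sg]
      have h3 := Complex.norm_le_abs_re_add_abs_im (σ s)
      rw [dist_eq_norm] at hu
      rw [mem_closedBall_zero_iff]
      rw [hs', abs_zero] at h3
      rw [h2] at h1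
      linarith⟩
    fun h => far (x := 9 / 5) (by norm_num [abs_of_pos])
      ((ball_subset_closedBall.trans (closedBall_subset_closedBall (by norm_num)))
        (h ⟨1, a1.trans sg1⟩))
  refine ⟨γ, c1, fun v hv => ?_, (cov_ball 0 2).mono le_rfl le_rfl fun v hv =>
    closedBall_subset_ball (by norm_num) (c2 hv).2⟩
  rw [hT.free hξ]
  rintro ⟨K, hK, hvK⟩
  have hv1 : ‖v‖ ≤ 31 / 20 * 1 := mem_closedBall_zero_iff.1 (c2 hv).2
  refine disjoint_left.1 (Free.disjoint (T := ins (ball 0 (7 / 4)) T) (K := K)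
    ⟨hK.1, fun y hy => ?_⟩ hK.2) (a2 (c2 hv).1).1 hvK
  have h4 : dist y v < 1 / 100 := by
    by_contra hn
    exact hS v (mem_ball_zero_iff.2 (by linarith)) ⟨K, hK.1, K, .refl, ⟨v, hvK, rfl⟩, y, hy, hn⟩
  rw [mem_ball_zero_iff]
  rw [dist_eq_norm] at h4
  linarith [norm_sub_norm_le y v]

end DettA

theorem p_DETT (hRJAN : S_RJAN) (hRDTR : S_RDTR) (hFILL : S_FILL) (hDMON : S_DMON) :
    S_DETT :=
  ⟨DettA.one hRJAN hRDTR hFILL, DettA.two hRJAN hRDTR hFILL hDMON⟩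

end Pool.Agent.P.MP_d66c6d_pr
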