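import Pool.Agent.P.MP_d66c6d_pr.D.Iface

/-! Step DLOC of the carpet project. -/

namespace Pool.Agent.P.MP_d66c6d_pr

open MeasureTheory ProbabilityTheory Set Metric Filter Topology
open scoped ENNReal

namespace DlocA

variable {T T' : Set (Set ℂ)} {z : ℂ} {r ξ₀ : ℝ}

theorem fr (h0 : 0 < ξ₀) (h : Same (ball z (2 * r)) ξ₀ T T') {ξ : ℝ} (hξ : 0 < ξ) :
    Free (min ξ ξ₀) T ∩ ball z (2 * r) ⊆ Free ξ T' :=
  (h.free isOpen_ball (lt_min hξ h0) (min_le_right _ _)).trans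
    (Free_mono (min_le_left _ _) Subset.rfl)

theorem fr5 (hr : 0 < r) (h0 : 0 < ξ₀) (h : Same (ball z (2 * r)) ξ₀ T T') {ξ : ℝ} (hξ : 0 < ξ) :
    Free (min ξ ξ₀) T ∩ ball z (5 / 4 * r) ⊆ Free ξ T' ∩ ball z (5 / 4 * r) := fun _ hy =>
  ⟨fr h0 h hξ ⟨hy.1, ball_subset_ball (by linarith) hy.2⟩, hy.2⟩

theorem arm (hD : S_DMON) (hr : 0 < r) (h0 : 0 < ξ₀) (h : Same (ball z (2 * r)) ξ₀ T T')
    {ξ : ℝ} (hξ : 0 < ξ) : Arm (Free (min ξ ξ₀) T) (ball z (31 / 20 * r))ᶜ z r ⊆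
      Arm (Free ξ T') (ball z (31 / 20 * r))ᶜ z r := by
  rintro y ⟨hy, w, hw, hj⟩
  obtain ⟨γ, e0, e1, hγ⟩ := joinedIn_iff_br.1 hj
  obtain ⟨γ', f0, f1, hγ'⟩ := hD.1 γ z (31 / 20 * r)
    (e0 ▸ ball_subset_closedBall (ball_subset_ball (by linarith) hy))
    fun hc => hw (e1 ▸ hc (mem_range_self 1))
  refine ⟨hy, γ' 1, fun hc => (mem_ball.1 hc).ne (mem_sphere.1 f1), joinedIn_iff_br.2
    ⟨γ', f0.trans e0, rfl, fun x hx => fr h0 h hξ ⟨hγ (hγ' hx).1, ?_⟩⟩⟩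
  exact closedBall_subset_ball (by linarith) (hγ' hx).2

theorem crs (hD : S_DMON) (hr : 0 < r) (h0 : 0 < ξ₀) (h : Same (ball z (2 * r)) ξ₀ T T')
    {ξ : ℝ} (hξ : 0 < ξ) {γ : Br} (hγ : CrsG z r γ) (hF : range γ ⊆ Free (min ξ ξ₀) T) :
    ∃ γ' : Br, CrsG z r γ' ∧ range γ' ⊆ Free ξ T' ∧ range γ' ⊆ range γ := by
  obtain ⟨γ', h1, h2⟩ := hD.2.1 γ z r hr ⟨γ 0, mem_range_self 0, hγ.1⟩
    fun hc => hγ.2 (hc (mem_range_self 1))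
  exact ⟨γ', h1, fun x hx => fr h0 h hξ ⟨hF (h2 hx).1,
    closedBall_subset_ball (by linarith) (h2 hx).2⟩, fun x hx => (h2 hx).1⟩

theorem reach_mono {G G' D : Set ℂ} (h : G ⊆ G') (ε d : ℝ) : Reach G ε d D ⊆ Reach G' ε d D :=
  fun _ ⟨γ, h0, h1, h2, h3⟩ => ⟨γ, h0, h1, h2.trans h, h3⟩

end DlocA

open DlocA in
theorem p_DLOC (hDMON : S_DMON) :
    S_DLOC := by
  intro T T' z r ξ₀ hr h0 h
  refine ⟨fun ε t => ⟨fun hZ ξ hξ => ?_, fun hN ξ hξ => ?_, fun hZ ξ hξ => ?_⟩,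
    fun δ h1 h2 hB ξ hξ => ?_⟩
  · obtain ⟨ξ', hξ', k, x, ρ, d, e1, e2, e3⟩ := hZ _ (lt_min hξ h0)
    exact ⟨min ξ' ξ₀, lt_min hξ' h0, k, x, ρ, d, e1, fun i => ⟨(e2 i).1, (e2 i).2.1,
      (e2 i).2.2.trans (fr5 hr h0 h hξ)⟩, (arm hDMON hr h0 h.symm hξ').trans (e3.trans
        (iUnion_mono fun i => closure_mono (reach_mono (fr5 hr h0 h hξ) _ _)))⟩
  · obtain ⟨γ, e1, e2, e3⟩ := hN _ (lt_min hξ h0)
    obtain ⟨γ', f1, f2, f3⟩ := crs hDMON hr h0 h hξ e1 e2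
    exact ⟨γ', f1, f2, e3.mono le_rfl le_rfl f3⟩
  · obtain ⟨ξ', hξ', e⟩ := hZ _ (lt_min hξ h0)
    refine ⟨min ξ' ξ₀, lt_min hξ' h0, fun y hy y' hy' => ?_⟩
    obtain ⟨γ, e0, e1, e2, e3⟩ := e y (arm hDMON hr h0 h.symm hξ' hy) y'
      (arm hDMON hr h0 h.symm hξ' hy')
    exact ⟨γ, e0, e1, e2.trans (fr5 hr h0 h hξ), e3⟩
  · obtain ⟨γ, e1, e2, e3⟩ := hB _ (lt_min hξ h0)
    obtain ⟨γ', f1, f2, f3⟩ := crs hDMON hr h0 h hξ e1 e2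
    refine ⟨γ', f1, f2, fun s a1 a2 => ?_⟩
    obtain ⟨s', hs'⟩ := f3 (mem_range_self s)
    rw [← hs'] at a1 a2 ⊢
    obtain ⟨w, hw, hd⟩ := mem_thickening_iff.1 (e3 s' a1 a2)
    have hw2 : w ∈ ball z (2 * r) := by
      have := dist_triangle_left w z (γ s')
      rw [mem_ball]
      linarith
    have hw3 : w ∈ TT (r / 25) T' ∩ ball z (2 * r) := by
      rw [← h (r / 25) (by linarith) h1]
      exact ⟨hw, hw2⟩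
    exact mem_thickening_iff.2 ⟨w, hw3.1, hd⟩

end Pool.Agent.P.MP_d66c6d_pr
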