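import Pool.Agent.P.MP_d66c6d_pr.D.Iface

/-! Step DMEA of the carpet project. -/

namespace Pool.Agent.P.MP_d66c6d_pr

open MeasureTheory ProbabilityTheory Set Metric Filter Topology
open scoped ENNReal

namespace DmeaA

theorem free_iff (γ : Br) (ξ : ℝ) (S : Cfg KC) : range γ ⊆ Free ξ (sets S) ↔
    ∃ n : ℕ, S ∈ vd (bigK ξ ∩ hitK (thickening (1 / ((n : ℝ) + 1)) (range γ))) := by
  constructor
  · intro h
    obtain ⟨δ, hδ, hd⟩ :=
      (isCompact_range γ.continuous).exists_thickening_subset_open (isOpen_Free ξ _) h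
    obtain ⟨n, hn⟩ := exists_nat_one_div_lt hδ
    refine ⟨n, mem_vd.2 fun K hK ⟨h1, x, h2, h3⟩ => ?_⟩
    exact hd (thickening_mono hn.le _ h3) (subset_closure (mem_TT.2 ⟨K, ⟨K, hK, rfl⟩, h1, h2⟩))
  · rintro ⟨n, hn⟩ x hx hc
    obtain ⟨y, y1, y2⟩ := mem_closure_iff.1 hc _ isOpen_thickening
      (self_subset_thickening (δ := 1 / ((n : ℝ) + 1)) (by positivity) _ hx)
    obtain ⟨_, ⟨K, hK, rfl⟩, h1, h2⟩ := mem_TT.1 y2
    exact mem_vd.1 hn K hK ⟨h1, y, h2, y1⟩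

theorem meas_free (F : Set Br) (ξ : ℝ) :
    MeasurableSet {S : Cfg KC | ∃ γ ∈ F, range γ ⊆ Free ξ (sets S)} := by
  obtain ⟨D, hDF, hD, hFD⟩ :=
    (TopologicalSpace.IsSeparable.of_separableSpace F).exists_countable_dense_subset
  have h : {S : Cfg KC | ∃ γ ∈ F, range γ ⊆ Free ξ (sets S)} = ⋃ γ ∈ D, ⋃ n : ℕ,
      vd (bigK ξ ∩ hitK (thickening (1 / ((n : ℝ) + 1)) (range γ))) := by
    ext S
    simp only [mem_ofPred_eq, mem_iUnion, ← free_iff, exists_prop]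
    refine ⟨fun ⟨γ, h1, h2⟩ => ?_, fun ⟨γ, h1, h2⟩ => ⟨γ, hDF h1, h2⟩⟩
    obtain ⟨γ', h3, h4⟩ := mem_closure_iff.1 (hFD h1) (trB ⁻¹' inK (Free ξ (sets S)))
      ((isOpen_inK (isOpen_Free ξ _)).preimage continuous_trB) h2
    exact ⟨γ', h4, h3⟩
  rw [h]
  exact MeasurableSet.biUnion hD fun γ _ => MeasurableSet.iUnion fun n => measurableSet_vd
    ((measurableSet_bigK ξ).inter (isOpen_hitK isOpen_thickening).measurableSet)

theorem meas_via (F : Set Br) : MeasurableSet {S : Cfg KC | Via (sets S) F} := by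
  have h : {S : Cfg KC | Via (sets S) F} =
      ⋂ n : ℕ, {S : Cfg KC | ∃ γ ∈ F, range γ ⊆ Free (1 / ((n : ℝ) + 1)) (sets S)} := by
    ext S
    simp only [mem_ofPred_eq, mem_iInter]
    refine ⟨fun h n => h _ (by positivity), fun h ξ hξ => ?_⟩
    obtain ⟨n, hn⟩ := exists_nat_one_div_lt hξ
    obtain ⟨γ, h1, h2⟩ := h n
    exact ⟨γ, h1, h2.trans (Free_mono hn.le Subset.rfl)⟩
  rw [h]
  exact MeasurableSet.iInter fun n => meas_free F _

theorem isOpen_nfill (x z : ℂ) (r : ℝ) :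
    IsOpen {K : KC | x ∉ fill ((K : Set ℂ) ∩ closedBall z r)} := by
  refine isOpen_iff_mem_nhds.2 fun K hK => ?_
  obtain ⟨w, hw, hj⟩ := exists_far (K.isCompact.isClosed.inter isClosed_closedBall) hK z (|r| + 1)
  have hP : IsCompact (range hj.somePath) := isCompact_range hj.somePath.continuous
  refine mem_of_superset ((isOpen_inK (hP.isClosed.inter (isClosed_closedBall (x := z)
    (ε := r))).isOpen_compl).mem_nhds fun u hu ⟨⟨t, ht⟩, hu'⟩ =>
      hj.somePath_mem t (ht ▸ ⟨hu, hu'⟩)) fun L hL hf => ?_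
  have h1 := fill_conn (isPreconnected_range hj.somePath.continuous)
    (disjoint_left.2 fun u hu hu' => hL hu'.1 ⟨hu, hu'.2⟩) ⟨0, hj.somePath.source⟩
    ⟨1, hj.somePath.target⟩ hf
  exact absurd (fill_subset_ball (c := z) (r := |r| + 1) (by positivity) (fun u hu =>
    closedBall_subset_ball ((le_abs_self r).trans_lt (lt_add_one _)) hu.2) h1) (not_lt.2 hw)

end DmeaA

open DmeaA in
theorem p_DMEA :
    S_DMEA := by
  refine ⟨meas_free, meas_via, fun z r ε t => ?_, fun A ε t => ?_, fun z ρ => ?_, ?_⟩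
  · refine (meas_via {γ | CrsG z r γ ∧ Cov ε t (range γ)}).congr ?_
    ext S
    exact forall₂_congr fun ξ _ => exists_congr fun γ =>
      ⟨fun h => ⟨h.1.1, h.2, h.1.2⟩, fun h => ⟨⟨h.1, h.2.2⟩, h.2.1⟩⟩
  · refine (meas_via {γ | γ 0 ∈ closedBall (0 : ℂ) (1 / 2) ∧ γ 1 ∈ A ∧
      Cov ε t (range γ ∩ closedBall 0 (5 / 4))}).congr ?_
    ext S
    exact forall₂_congr fun ξ _ => exists_congr fun γ =>
      ⟨fun h => ⟨h.1.1, h.1.2.1, h.2, h.1.2.2⟩, fun h => ⟨⟨h.1, h.2.1, h.2.2.2⟩, h.2.2.1⟩⟩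
  · have h : IsOpen (⋃ x ∈ closedBall z ρ,
        {K : KC | x ∉ fill ((K : Set ℂ) ∩ closedBall z (9 * ρ))}) :=
      isOpen_biUnion fun x _ => isOpen_nfill x z _
    refine (measurableSet_allIn h.measurableSet).congr ?_
    ext S
    simp only [NoCE, NoC, sets, mem_ofPred_eq, forall_mem_image, mem_iUnion, not_subset,
      exists_prop]
  · refine (measurableSet_allIn ((isClosed_hitK (isClosed_closedBall (x := (0 : ℂ))
      (ε := 2))).measurableSet.compl.union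
      (isOpen_inK (isOpen_ball (x := (0 : ℂ)) (ε := 3))).measurableSet)).congr ?_
    ext S
    simp only [Near, sets, mem_ofPred_eq, forall_mem_image, mem_union, mem_compl_iff, hitK, inK,
      ← imp_iff_not_or]

end Pool.Agent.P.MP_d66c6d_pr
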