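import Pool.Agent.P.MP_d66c6d_pr.D.Iface

/-! Step DMEB of the carpet project. -/

namespace Pool.Agent.P.MP_d66c6d_pr

open MeasureTheory ProbabilityTheory Set Metric Filter Topology TopologicalSpace
open scoped ENNReal

namespace DmebA

/-- Random open sets that are countable unions of measurable pieces. -/
def Good (O : Cfg KC → Set ℂ) : Prop :=
  ∃ (ι : Type) (_ : Countable ι) (E : ι → Set (Cfg KC)) (U : ι → Set ℂ),
    (∀ i, MeasurableSet (E i)) ∧ (∀ i, IsOpen (U i)) ∧ ∀ S x, x ∈ O S ↔ ∃ i, S ∈ E i ∧ x ∈ U i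

theorem Good.inter {O O' : Cfg KC → Set ℂ} (h : Good O) (h' : Good O') :
    Good fun S => O S ∩ O' S := by
  obtain ⟨ι, _, E, U, h1, h2, h3⟩ := h
  obtain ⟨ι', _, E', U', h1', h2', h3'⟩ := h'
  refine ⟨ι × ι', inferInstance, fun p => E p.1 ∩ E' p.2, fun p => U p.1 ∩ U' p.2,
    fun p => (h1 _).inter (h1' _), fun p => (h2 _).inter (h2' _), fun S x => ?_⟩
  rw [mem_inter_iff, h3, h3']
  exact ⟨fun ⟨⟨i, a, b⟩, j, c, d⟩ => ⟨(i, j), ⟨a, c⟩, b, d⟩,
    fun ⟨p, ⟨a, c⟩, b, d⟩ => ⟨⟨p.1, a, b⟩, p.2, c, d⟩⟩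

theorem Good.union {O : Cfg KC → Set ℂ} (h : Good O) {W : Set ℂ} (hW : IsOpen W) :
    Good fun S => O S ∪ W := by
  obtain ⟨ι, _, E, U, h1, h2, h3⟩ := h
  refine ⟨Option ι, inferInstance, fun p => p.elim univ E, fun p => p.elim W U, ?_, ?_,
    fun S x => ?_⟩
  · rintro (_ | i)
    exacts [MeasurableSet.univ, h1 i]
  · rintro (_ | i)
    exacts [hW, h2 i]
  · rw [mem_union, h3, Option.exists, or_comm]
    simp

theorem hit (ξ : ℝ) {U : Set ℂ} (hU : IsOpen U) :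
    MeasurableSet {S : Cfg KC | (TT ξ (sets S) ∩ U).Nonempty} := by
  refine (measurableSet_hit ((measurableSet_bigK ξ).inter (isOpen_hitK hU).measurableSet)).congr ?_
  ext S
  constructor
  · rintro ⟨K, h1, h2, x, h3, h4⟩
    exact ⟨x, mem_TT.2 ⟨K, ⟨K, h1, rfl⟩, h2, h3⟩, h4⟩
  · rintro ⟨x, h1, h4⟩
    obtain ⟨_, ⟨K, h1, rfl⟩, h2, h3⟩ := mem_TT.1 h1
    exact ⟨K, h1, h2, x, h3, h4⟩

theorem good_free (ξ : ℝ) : Good fun S => Free ξ (sets S) := by
  refine ⟨countableBasis ℂ, (countable_countableBasis ℂ).to_subtype,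
    fun U => {S | (TT ξ (sets S) ∩ U).Nonempty}ᶜ, fun U => U,
    fun U => (hit ξ (isOpen_of_mem_countableBasis U.2)).compl,
    fun U => isOpen_of_mem_countableBasis U.2, fun S x => ⟨fun h => ?_, ?_⟩⟩
  · obtain ⟨U, hU, h1, h2⟩ := (isBasis_countableBasis ℂ).exists_subset_of_mem_open h
      (isOpen_Free ξ _)
    exact ⟨⟨U, hU⟩, fun ⟨y, y1, y2⟩ => h2 y2 (subset_closure y1), h1⟩
  · rintro ⟨U, h1, h2⟩ h
    obtain ⟨y, y1, y2⟩ := mem_closure_iff.1 h U (isOpen_of_mem_countableBasis U.2) h2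
    exact h1 ⟨y, y2, y1⟩

theorem good_thick (δ η : ℝ) : Good fun S => thickening δ (TT η (sets S)) := by
  refine ⟨countableBasis ℂ, (countable_countableBasis ℂ).to_subtype,
    fun U => {S | (TT η (sets S) ∩ U).Nonempty}, fun U => interior {x | (U : Set ℂ) ⊆ ball x δ},
    fun U => hit η (isOpen_of_mem_countableBasis U.2), fun U => isOpen_interior,
    fun S x => ⟨fun h => ?_, ?_⟩⟩
  · obtain ⟨y, h1, h2⟩ := mem_thickening_iff.1 h
    have hs : 0 < (δ - dist x y) / 2 := by linarith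
    obtain ⟨U, hU, h3, h4⟩ := (isBasis_countableBasis ℂ).exists_subset_of_mem_open
      (mem_ball_self hs : y ∈ _) isOpen_ball
    refine ⟨⟨U, hU⟩, ⟨y, h1, h3⟩, mem_interior_iff_mem_nhds.2
      (mem_of_superset (ball_mem_nhds x hs) fun x' hx' y' hy' => ?_)⟩
    have h5 := h4 hy'
    rw [mem_ball] at hx' h5 ⊢
    linarith [dist_triangle4 y' y x x', dist_comm x y, dist_comm x x']
  · rintro ⟨U, ⟨y, y1, y2⟩, h2⟩
    exact mem_thickening_iff.2 ⟨y, y1, mem_ball'.1 (interior_subset h2 y2)⟩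

theorem Good.meas {O : Cfg KC → Set ℂ} (h : Good O) (F : Set Br) :
    MeasurableSet {S | ∃ γ ∈ F, range γ ⊆ O S} := by
  obtain ⟨ι, _, E, U, h1, h2, h3⟩ := h
  have : {S | ∃ γ ∈ F, range γ ⊆ O S} =
      ⋃ I : Finset ι, ⋃ _ : ∃ γ ∈ F, range γ ⊆ ⋃ i ∈ I, U i, ⋂ i ∈ I, E i := by
    ext S
    simp only [mem_ofPred_eq, mem_iUnion, mem_iInter, exists_prop]
    constructor
    · rintro ⟨γ, hγ, h⟩
      obtain ⟨I, i1, i2, i3⟩ := (isCompact_range γ.continuous).elim_finite_subcover_image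
        (b := {i | S ∈ E i}) (c := U) (fun i _ => h2 i) fun x hx => by
          obtain ⟨i, a, b⟩ := (h3 S x).1 (h hx)
          exact mem_biUnion a b
      lift I to Finset ι using i2
      exact ⟨I, ⟨γ, hγ, i3⟩, fun i hi => i1 hi⟩
    · rintro ⟨I, ⟨γ, hγ, h⟩, h'⟩
      refine ⟨γ, hγ, fun x hx => ?_⟩
      obtain ⟨i, a, b⟩ := mem_iUnion₂.1 (h hx)
      exact (h3 S x).2 ⟨i, h' i a, b⟩
  rw [this]
  exact MeasurableSet.iUnion fun I => MeasurableSet.iUnion fun _ =>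
    I.measurableSet_biInter fun i _ => h1 i

theorem main (F : Set Br) (z : ℂ) (r δ : ℝ) : MeasurableSet {S : Cfg KC | ∀ ξ > (0 : ℝ),
    ∃ γ ∈ F, range γ ⊆ Free ξ (sets S) ∧ Hug (sets S) z r δ γ} := by
  have hW : IsOpen (ball z r ∪ (closedBall z (5 / 4 * r))ᶜ) :=
    isOpen_ball.union isClosed_closedBall.isOpen_compl
  refine (MeasurableSet.iInter fun n : ℕ => ((good_free (1 / ((n : ℝ) + 1))).inter
    ((good_thick δ (r / 25)).union hW)).meas F).congr ?_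
  have key : ∀ (T : Set (Set ℂ)) (γ : Br), Hug T z r δ γ ↔ range γ ⊆
      thickening δ (TT (r / 25) T) ∪ (ball z r ∪ (closedBall z (5 / 4 * r))ᶜ) := by
    intro T γ
    rw [range_subset_iff]
    refine forall_congr' fun s => ?_
    simp only [mem_union, mem_ball, mem_compl_iff, mem_closedBall, ← not_le]
    tauto
  ext S
  simp only [mem_iInter, mem_ofPred_eq, subset_inter_iff, key]
  refine ⟨fun h ξ hξ => ?_, fun h n => h _ Nat.one_div_pos_of_nat⟩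
  obtain ⟨n, hn⟩ := exists_nat_one_div_lt hξ
  obtain ⟨γ, h1, h2, h3⟩ := h n
  exact ⟨γ, h1, h2.trans (Free_mono hn.le Subset.rfl), h3⟩

end DmebA

theorem p_DMEB :
    S_DMEB := by
  refine ⟨fun z r δ => DmebA.main {γ | CrsG z r γ} z r δ, fun A δ => ?_⟩
  refine (DmebA.main {γ | γ 0 ∈ closedBall (0 : ℂ) (1 / 2) ∧ γ 1 ∈ A} 0 1 δ).congr ?_
  ext S
  simp only [BBA, mem_ofPred_eq, and_assoc]

end Pool.Agent.P.MP_d66c6d_pr
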