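import Pool.Agent.P.MP_d66c6d_pr.D.Iface

/-! Step DMEZ of the carpet project. -/

namespace Pool.Agent.P.MP_d66c6d_pr

open MeasureTheory ProbabilityTheory Set Metric Filter Topology
open scoped ENNReal

namespace DmezA

theorem m_ball (x : ℂ) (s ξ : ℝ) : Measurable fun S : Cfg KC => ball x s ⊆ Free ξ (sets S) := by
  refine ((measurableSet_vd ((measurableSet_bigK ξ).inter
    (isOpen_hitK (isOpen_ball (x := x) (ε := s))).measurableSet)).congr (Set.ext fun S => ?_)).mem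
  rw [mem_vd]
  constructor
  · intro h y hy hc
    obtain ⟨w, hw, hw'⟩ := mem_closure_iff.1 hc _ isOpen_ball hy
    obtain ⟨_, ⟨K, hK, rfl⟩, h1, h2⟩ := mem_TT.1 hw'
    exact h K hK ⟨h1, w, h2, hw⟩
  · rintro h K hK ⟨h1, w, h2, hw⟩
    exact h hw (subset_closure (mem_TT.2 ⟨K, ⟨K, hK, rfl⟩, h1, h2⟩))

theorem isOpen_Arm {G : Set ℂ} (hG : IsOpen G) (A : Set ℂ) (z : ℂ) (r : ℝ) :
    IsOpen (Arm G A z r) := by
  refine Metric.isOpen_iff.2 ?_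
  rintro y ⟨hy, w, hw, hj⟩
  obtain ⟨η, hη, h⟩ := Metric.isOpen_iff.1 (hG.inter isOpen_ball) y ⟨hj.source_mem, hy⟩
  refine ⟨η, hη, fun y' hy' => ⟨(h hy').2, w, hw, JoinedIn.trans ?_ hj⟩⟩
  exact (((convex_ball y η).isPathConnected ⟨y, mem_ball_self hη⟩).joinedIn y' hy' y
    (mem_ball_self hη)).mono fun u hu => (h hu).1

theorem reach_mono {G G' D D' : Set ℂ} {ε d : ℝ} (hG : G ⊆ G') (hD : D ⊆ D') :
    Reach G ε d D ⊆ Reach G' ε d D' := fun _ ⟨γ, h0, h1, h2, h3⟩ =>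
  ⟨γ, h0, hD h1, h2.trans hG, h3⟩

theorem zat_mono {G₁ G₂ G₁' G₂' A : Set ℂ} {z : ℂ} {r ε t : ℝ} (h : Zat G₁ G₁' A z r ε t)
    (hG : G₁ ⊆ G₂) (hG' : G₂' ⊆ G₁') : Zat G₂ G₂' A z r ε t := by
  obtain ⟨k, x, ρ, d, h1, h2, h3⟩ := h
  refine ⟨k, x, ρ, d, h1, fun i => ⟨(h2 i).1, (h2 i).2.1,
    (h2 i).2.2.trans (inter_subset_inter_left _ hG)⟩, ?_⟩
  rintro y ⟨hy, w, hw, hj⟩
  exact iUnion_mono (fun i => closure_mono (reach_mono (inter_subset_inter_left _ hG) Subset.rfl))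
    (h3 ⟨hy, w, hw, hj.mono hG'⟩)

theorem ratl {U : Set ℂ} (hU : IsOpen U) {x : ℂ} {ρ ε : ℝ} (h0 : 0 ≤ ρ) (hε : ρ < ε)
    (h : closedBall x ρ ⊆ U) : ∃ (n : ℕ) (q q' : ℚ), (0 : ℝ) ≤ q ∧ (q : ℝ) < ε ∧ (q : ℝ) < q' ∧
      ball (dn n) q' ⊆ U ∧ closedBall x ρ ⊆ closedBall (dn n) q := by
  obtain ⟨δ, hδ, h1⟩ := (isCompact_closedBall x ρ).exists_thickening_subset_open hU h
  rw [thickening_closedBall hδ h0] at h1
  have h2 : 0 < min δ (ε - ρ) := lt_min hδ (by linarith)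
  have h3 := min_le_left δ (ε - ρ)
  have h4 := min_le_right δ (ε - ρ)
  generalize min δ (ε - ρ) = η at h2 h3 h4
  obtain ⟨n, hn⟩ := denseRange_dn.exists_dist_lt x (show 0 < η / 4 by positivity)
  obtain ⟨q, a1, a2⟩ := exists_rat_btwn (show ρ + η / 4 < ρ + η / 2 by linarith)
  obtain ⟨q', a3, a4⟩ := exists_rat_btwn (show ρ + η / 2 < ρ + 3 * η / 4 by linarith)
  refine ⟨n, q, q', by linarith, by linarith, by linarith, (ball_subset_ball' ?_).trans h1,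
    closedBall_subset_closedBall' (by linarith)⟩
  rw [dist_comm]
  linarith

theorem zat_iff {G G' : Set ℂ} (hG : IsOpen G) (hG' : IsOpen G') (A : Set ℂ) (z : ℂ) (r ε t : ℝ) :
    Zat G G' A z r ε t ↔ ∃ (k : ℕ) (n : Fin k → ℕ) (q q' : Fin k → ℚ) (d : Fin k → ℕ),
      (∑ i, ((d i : ℝ) + 1) ≤ t ∧ ∀ i, (0 : ℝ) ≤ q i ∧ (q i : ℝ) < ε ∧ (q i : ℝ) < q' i ∧
        ball (dn (n i)) (q' i) ⊆ ball z (5 / 4 * r)) ∧ (∀ i, ball (dn (n i)) (q' i) ⊆ G) ∧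
      ∀ j, dn j ∈ Arm G' A z r → ∃ i, dn j ∈
        closure (Reach (G ∩ ball z (5 / 4 * r)) ε (d i) (closedBall (dn (n i)) (q i))) := by
  constructor
  · rintro ⟨k, x, ρ, d, h1, h2, h3⟩
    choose n q q' a1 a2 a3 a4 a5 using fun i =>
      ratl (hG.inter isOpen_ball) (h2 i).1 (h2 i).2.1 (h2 i).2.2
    refine ⟨k, n, q, q', d, ⟨h1, fun i => ⟨a1 i, a2 i, a3 i, (a4 i).trans inter_subset_right⟩⟩,
      fun i => (a4 i).trans inter_subset_left, fun j hj => ?_⟩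
    obtain ⟨i, hi⟩ := mem_iUnion.1 (h3 hj)
    exact ⟨i, closure_mono (reach_mono Subset.rfl (a5 i)) hi⟩
  · rintro ⟨k, n, q, q', d, ⟨h1, h2⟩, h3, h4⟩
    refine ⟨k, fun i => dn (n i), fun i => q i, d, h1, fun i => ⟨(h2 i).1, (h2 i).2.1,
      (closedBall_subset_ball (h2 i).2.2.1).trans (subset_inter (h3 i) (h2 i).2.2.2)⟩, ?_⟩
    refine (denseRange_dn.open_subset_closure_inter (isOpen_Arm hG' A z r)).trans
      (closure_minimal ?_ (isClosed_iUnion_of_finite fun i => isClosed_closure))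
    rintro _ ⟨hj, j, rfl⟩
    exact mem_iUnion.2 (h4 j hj)

theorem m_arm (h : S_DMEA) (y : ℂ) (ξ : ℝ) (A : Set ℂ) (z : ℂ) (r : ℝ) :
    Measurable fun S : Cfg KC => y ∈ Arm (Free ξ (sets S)) A z r := by
  refine ((h.1 {γ | y ∈ ball z r ∧ γ 0 = y ∧ γ 1 ∈ A} ξ).congr (Set.ext fun S => ?_)).mem
  constructor
  · rintro ⟨γ, ⟨h1, h2, h3⟩, h4⟩
    exact ⟨h1, _, h3, joinedIn_iff_br.2 ⟨γ, h2, rfl, h4⟩⟩
  · rintro ⟨h1, w, hw, hj⟩
    obtain ⟨γ, h2, h3, h4⟩ := joinedIn_iff_br.1 hj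
    exact ⟨γ, ⟨h1, h2, h3 ▸ hw⟩, h4⟩

theorem m_reach (h : S_DMEA) (y : ℂ) (ξ ε d : ℝ) (B D : Set ℂ) :
    Measurable fun S : Cfg KC => y ∈ closure (Reach (Free ξ (sets S) ∩ B) ε d D) := by
  refine ((MeasurableSet.iInter fun n : ℕ => h.1 {γ | dist y (γ 0) < 1 / ((n : ℝ) + 1) ∧ γ 1 ∈ D ∧
    range γ ⊆ B ∧ Cov ε d (range γ)} ξ).congr (Set.ext fun S => ?_)).mem
  rw [mem_iInter]
  constructor
  · intro h1
    refine Metric.mem_closure_iff.2 fun η hη => ?_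
    obtain ⟨n, hn⟩ := exists_nat_one_div_lt hη
    obtain ⟨γ, ⟨a1, a2, a3, a4⟩, a5⟩ := h1 n
    exact ⟨γ 0, ⟨γ, rfl, a2, subset_inter a5 a3, a4⟩, a1.trans hn⟩
  · intro h1 n
    obtain ⟨_, ⟨γ, rfl, a2, a3, a4⟩, a1⟩ :=
      Metric.mem_closure_iff.1 h1 (1 / ((n : ℝ) + 1)) (by positivity)
    exact ⟨γ, ⟨a1, a2, a3.trans inter_subset_right, a4⟩, a3.trans inter_subset_left⟩

theorem m_zat (h : S_DMEA) (ξ ξ' : ℝ) (A : Set ℂ) (z : ℂ) (r ε t : ℝ) :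
    Measurable fun S : Cfg KC => Zat (Free ξ (sets S)) (Free ξ' (sets S)) A z r ε t := by
  simp only [zat_iff (isOpen_Free _ _) (isOpen_Free _ _)]
  exact .exists fun k => .exists fun n => .exists fun q => .exists fun q' => .exists fun d =>
    measurable_const.and ((Measurable.forall fun i => m_ball _ _ _).and
      (.forall fun j => (m_arm h _ _ _ _ _).imp (.exists fun i => m_reach h _ _ _ _ _ _)))

end DmezA

open DmezA

theorem p_DMEZ (hDMEA : S_DMEA) :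
    S_DMEZ := by
  intro A z r ε t
  refine (MeasurableSet.iInter fun n : ℕ => MeasurableSet.iUnion fun m : ℕ =>
    (m_zat hDMEA (1 / ((n : ℝ) + 1)) (1 / ((m : ℝ) + 1)) A z r ε t).setOf).congr
    (Set.ext fun S => ?_)
  simp only [mem_iInter, mem_iUnion]
  constructor
  · intro h ξ hξ
    obtain ⟨n, hn⟩ := exists_nat_one_div_lt hξ
    obtain ⟨m, hm⟩ := h n
    exact ⟨_, by positivity, zat_mono hm (Free_mono hn.le Subset.rfl) Subset.rfl⟩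
  · intro h n
    obtain ⟨ξ', hξ', h1⟩ := h (1 / ((n : ℝ) + 1)) (by positivity)
    obtain ⟨m, hm⟩ := exists_nat_one_div_lt hξ'
    exact ⟨m, zat_mono h1 Subset.rfl (Free_mono hm.le Subset.rfl)⟩

end Pool.Agent.P.MP_d66c6d_pr
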