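import Pool.Agent.P.MP_d66c6d_pr.D.Iface

/-! Step DMON of the carpet project. -/

namespace Pool.Agent.P.MP_d66c6d_pr

open MeasureTheory ProbabilityTheory Set Metric Filter Topology
open scoped ENNReal

namespace DmonA

theorem stop (γ : Br) (z : ℂ) (r : ℝ) (h0 : γ 0 ∈ closedBall z r) (h : ¬ range γ ⊆ ball z r) :
    ∃ γ' : Br, γ' 0 = γ 0 ∧ γ' 1 ∈ sphere z r ∧ range γ' ⊆ range γ ∩ closedBall z r := by
  have hc : Continuous fun s : unitInterval => dist (γ s) z := by fun_prop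
  have hivt : ∀ s : unitInterval, r ≤ dist (γ s) z → ∃ u ≤ s, dist (γ u) z = r := by
    intro s hs
    have h1 : (0 : unitInterval) ≤ s := s.2.1
    obtain ⟨u, hu, hu'⟩ := intermediate_value_Icc h1 hc.continuousOn ⟨mem_closedBall.1 h0, hs⟩
    exact ⟨u, hu.2, hu'⟩
  obtain ⟨_, ⟨s, rfl⟩, hs⟩ := not_subset.1 h
  obtain ⟨u, -, hu⟩ := hivt s (not_lt.1 fun h' => hs (mem_ball.2 h'))
  have hcl : IsClosed {s : unitInterval | dist (γ s) z = r} := isClosed_eq hc continuous_const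
  obtain ⟨τ, hτ, hτ'⟩ := hcl.isCompact.exists_isLeast ⟨u, hu⟩
  obtain ⟨β, b0, b1, b2⟩ := exists_br_piece γ (show (0 : unitInterval) ≤ τ from τ.2.1)
  refine ⟨β, b0, ?_, ?_⟩
  · rw [b1]
    exact mem_sphere.2 hτ
  · rw [b2]
    rintro _ ⟨v, hv, rfl⟩
    refine ⟨mem_range_self v, mem_closedBall.2 (not_lt.1 fun h' => ?_)⟩
    obtain ⟨w, hw, hw'⟩ := hivt v h'.le
    have h2 : v = τ := le_antisymm hv.2 ((hτ' hw').trans hw)
    have h3 : dist (γ τ) z = r := hτ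
    rw [h2, h3] at h'
    exact lt_irrefl _ h'

theorem cross (γ : Br) (z : ℂ) (r : ℝ) (hr : 0 < r)
    (h0 : (range γ ∩ closedBall z (r / 2)).Nonempty) (h : ¬ range γ ⊆ ball z (31 / 20 * r)) :
    ∃ γ' : Br, CrsG z r γ' ∧ range γ' ⊆ range γ ∩ closedBall z (31 / 20 * r) := by
  obtain ⟨_, ⟨s, rfl⟩, hs⟩ := h0
  obtain ⟨_, ⟨t, rfl⟩, ht⟩ := not_subset.1 h
  have hβ : ∃ β : Br, β 0 = γ s ∧ β 1 = γ t ∧ range β ⊆ range γ := by
    rcases le_total s t with hst | hst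
    · obtain ⟨β, b0, b1, b2⟩ := exists_br_piece γ hst
      exact ⟨β, b0, b1, b2 ▸ image_subset_range _ _⟩
    · obtain ⟨β, b0, b1, b2⟩ := exists_br_piece γ hst
      obtain ⟨α, a0, a1, a2⟩ := exists_br_symm β
      exact ⟨α, a0.trans b1, a1.trans b0, by rw [a2, b2]; exact image_subset_range _ _⟩
  obtain ⟨β, b0, b1, b2⟩ := hβ
  obtain ⟨α, a0, a1, a2⟩ := stop β z (31 / 20 * r)
    (by rw [b0]; exact closedBall_subset_closedBall (by linarith) hs)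
    (fun h' => ht (b1 ▸ h' (mem_range_self 1)))
  refine ⟨α, ⟨by rw [a0, b0]; exact hs, fun h' => ?_⟩,
    a2.trans (inter_subset_inter_left _ b2)⟩
  exact (mem_ball.1 h').ne (mem_sphere.1 a1)

theorem hug_mono {T : Set (Set ℂ)} {z : ℂ} {r δ δ' : ℝ} {γ : Br} (hδ : δ ≤ δ')
    (h : Hug T z r δ γ) : Hug T z r δ' γ :=
  fun s h1 h2 => thickening_mono hδ _ (h s h1 h2)

theorem cov_floor {ε t : ℝ} {A : Set ℂ} (h : Cov ε t A) : Cov ε (⌊t⌋₊ : ℕ) A := by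
  obtain ⟨Z, h1, h2⟩ := h
  exact ⟨Z, by exact_mod_cast Nat.le_floor h1, h2⟩

theorem nle_floor {T : Set (Set ℂ)} {z : ℂ} {r ε t : ℝ} (h : Nle T z r ε t) :
    Nle T z r ε (⌊t⌋₊ : ℕ) := fun ξ hξ => by
  obtain ⟨γ, h1, h2, h3⟩ := h ξ hξ
  exact ⟨γ, h1, h2, cov_floor h3⟩

theorem nle_one {T : Set (Set ℂ)} {z : ℂ} {r ε t : ℝ} (h : Nle T z r ε t) : 1 ≤ t := by
  obtain ⟨γ, -, -, Z, h1, h2⟩ := h 1 one_pos
  obtain ⟨w, hw, -⟩ := mem_iUnion₂.1 (h2 (mem_range_self 0))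
  have h3 : 1 ≤ Z.card := Finset.card_pos.2 ⟨w, hw⟩
  exact le_trans (by exact_mod_cast h3) h1

end DmonA

theorem p_DMON :
    S_DMON := by
  refine ⟨DmonA.stop, DmonA.cross, ?_, ?_, ?_, ?_, ?_, ?_, ?_, fun _ _ _ _ _ => DmonA.nle_one, ?_⟩
  · intro T ε t
    constructor
    · intro h ξ hξ
      obtain ⟨γ, h1, h2, h3⟩ := h ξ hξ
      obtain ⟨β, b1, b2⟩ := DmonA.cross γ 0 1 one_pos ⟨γ 0, mem_range_self 0, h1.1⟩
        (fun h' => h1.2 (h' (mem_range_self 1)))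
      refine ⟨β, ⟨⟨b1, ?_⟩, h3.mono le_rfl le_rfl (b2.trans inter_subset_left)⟩,
        (b2.trans inter_subset_left).trans h2⟩
      have h4 := b2.trans inter_subset_right
      rwa [mul_one] at h4
    · intro h ξ hξ
      obtain ⟨γ, ⟨⟨h1, -⟩, h3⟩, h2⟩ := h ξ hξ
      exact ⟨γ, h1, h2, h3⟩
  · intro T A A' z r ε ε' t t' hA hε ht h ξ hξ
    obtain ⟨ξ', hξ', k, x, ρ, d, h1, h2, h3⟩ := h ξ hξ
    refine ⟨ξ', hξ', k, x, ρ, d, h1.trans ht,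
      fun i => ⟨(h2 i).1, (h2 i).2.1.trans_le hε, (h2 i).2.2⟩, ?_⟩
    rintro y ⟨hy, w, hw, hj⟩
    obtain ⟨i, hi⟩ := mem_iUnion.1 (h3 ⟨hy, w, hA hw, hj⟩)
    refine mem_iUnion.2 ⟨i, closure_mono ?_ hi⟩
    rintro v ⟨γ, g0, g1, g2, g3⟩
    exact ⟨γ, g0, g1, g2, g3.mono hε le_rfl Subset.rfl⟩
  · intro T T' z r ε ε' t t' hT hε ht h ξ hξ
    obtain ⟨γ, h1, h2, h3⟩ := h ξ hξ
    exact ⟨γ, h1, h2.trans (Free_mono le_rfl hT), h3.mono hε ht Subset.rfl⟩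
  · intro T T' A A' ε ε' t t' hT hA hε ht h ξ hξ
    obtain ⟨γ, h0, h1, h2, h3⟩ := h ξ hξ
    exact ⟨γ, h0, hA h1, h2.trans (Free_mono le_rfl hT), h3.mono hε ht Subset.rfl⟩
  · intro T z r ε ε' t t' hε ht h ξ hξ
    obtain ⟨ξ', hξ', h1⟩ := h ξ hξ
    refine ⟨ξ', hξ', fun y hy y' hy' => ?_⟩
    obtain ⟨γ, g0, g1, g2, g3⟩ := h1 y hy y' hy'
    exact ⟨γ, g0, g1, g2, g3.mono hε ht Subset.rfl⟩
  · intro T z r δ δ' hδ h ξ hξ
    obtain ⟨γ, h1, h2, h3⟩ := h ξ hξ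
    exact ⟨γ, h1, h2, DmonA.hug_mono hδ h3⟩
  · intro T A δ δ' hδ h ξ hξ
    obtain ⟨γ, h0, h1, h2, h3⟩ := h ξ hξ
    exact ⟨γ, h0, h1, h2, DmonA.hug_mono hδ h3⟩
  · intro T ε t h
    classical
    have hex : ∃ n : ℕ, Nle T 0 1 ε n := ⟨_, DmonA.nle_floor h⟩
    have hmin : ∀ t' : ℝ, Nle T 0 1 ε t' → ((Nat.find hex : ℕ) : ℝ) ≤ t' := by
      intro t' h'
      have h1 : Nat.find hex ≤ ⌊t'⌋₊ := Nat.find_min' hex (DmonA.nle_floor h')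
      have h2 : ((⌊t'⌋₊ : ℕ) : ℝ) ≤ t' := Nat.floor_le (zero_le_one.trans (DmonA.nle_one h'))
      exact le_trans (by exact_mod_cast h1) h2
    exact ⟨Nat.find hex, hmin t h, Nat.find_spec hex, hmin⟩

end Pool.Agent.P.MP_d66c6d_pr
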