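import Pool.Agent.P.MP_d66c6d_pr.D.Iface
import Pool.Agent.P.MP_d66c6d_pr.A.Iface
import Pool.Agent.P.MP_d66c6d_pr.S.Surr

/-! Step DSIM of the carpet project. -/

namespace Pool.Agent.P.MP_d66c6d_pr

open MeasureTheory ProbabilityTheory Set Metric Filter Topology
open scoped ENNReal

namespace DsimA

/-- A similarity of ratio `k`. -/
structure Sim (f : ℂ ≃ₜ ℂ) (k : ℝ) : Prop where
  pos : 0 < k
  dist : ∀ x y, dist (f x) (f y) = k * dist x y

/-- The image of a path. -/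
noncomputable def mp (f : ℂ ≃ₜ ℂ) (γ : Br) : Br := (f : C(ℂ, ℂ)).comp γ

@[simp] theorem mp_apply (f : ℂ ≃ₜ ℂ) (γ : Br) (s : unitInterval) : mp f γ s = f (γ s) := rfl

theorem range_mp (f : ℂ ≃ₜ ℂ) (γ : Br) : range (mp f γ) = f '' range γ := range_comp f γ

namespace Sim

variable {f : ℂ ≃ₜ ℂ} {k : ℝ}

theorem symm (h : Sim f k) : Sim f.symm k⁻¹ := ⟨inv_pos.2 h.pos, fun x y => by
  have := h.dist (f.symm x) (f.symm y)
  rw [f.apply_symm_apply, f.apply_symm_apply] at this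
  rw [this, inv_mul_cancel_left₀ h.pos.ne']⟩

theorem mem_ball (h : Sim f k) {y z : ℂ} {r : ℝ} : f y ∈ ball (f z) (k * r) ↔ y ∈ ball z r := by
  rw [Metric.mem_ball, Metric.mem_ball, h.dist, mul_lt_mul_iff_right₀ h.pos]

theorem mem_cball (h : Sim f k) {y z : ℂ} {r : ℝ} :
    f y ∈ closedBall (f z) (k * r) ↔ y ∈ closedBall z r := by
  rw [mem_closedBall, mem_closedBall, h.dist, mul_le_mul_iff_right₀ h.pos]

theorem ball (h : Sim f k) (z : ℂ) (r : ℝ) : ball (f z) (k * r) = f '' ball z r := by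
  ext y
  obtain ⟨y, rfl⟩ := f.surjective y
  rw [h.mem_ball, f.injective.mem_set_image]

theorem cball (h : Sim f k) (z : ℂ) (r : ℝ) : closedBall (f z) (k * r) = f '' closedBall z r := by
  ext y
  obtain ⟨y, rfl⟩ := f.surjective y
  rw [h.mem_cball, f.injective.mem_set_image]

theorem ball' (h : Sim f k) (z : ℂ) (q r : ℝ) :
    Metric.ball (f z) (q * (k * r)) = f '' Metric.ball z (q * r) := by
  rw [mul_left_comm, h.ball]

theorem lip (h : Sim f k) : LipschitzWith ⟨k, h.pos.le⟩ f :=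
  LipschitzWith.of_dist_le_mul fun x y => (h.dist x y).le

theorem bdd (h : Sim f k) {A : Set ℂ} : Bornology.IsBounded (f '' A) ↔ Bornology.IsBounded A :=
  ⟨fun e => by simpa [image_image] using h.symm.lip.isBounded_image e, h.lip.isBounded_image⟩

theorem diam_le (h : Sim f k) (K : Set ℂ) : diam (f '' K) ≤ k * diam K := by
  by_cases hK : Bornology.IsBounded K
  · exact h.lip.diam_image_le K hK
  · rw [diam_eq_zero_of_unbounded (mt h.bdd.1 hK)]
    exact mul_nonneg h.pos.le diam_nonneg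

theorem diam (h : Sim f k) (K : Set ℂ) : diam (f '' K) = k * diam K := by
  refine le_antisymm (h.diam_le K) ?_
  have := h.symm.diam_le (f '' K)
  rw [image_image] at this
  simp only [f.symm_apply_apply, image_id'] at this
  exact (le_inv_mul_iff₀ h.pos).1 this

theorem tt (h : Sim f k) (ξ : ℝ) (T : Set (Set ℂ)) :
    TT (k * ξ) (image f '' T) = f '' TT ξ T := by
  ext y
  constructor
  · rintro ⟨_, ⟨⟨K, hK, rfl⟩, h1⟩, x, hx, rfl⟩
    rw [h.diam, mul_le_mul_iff_right₀ h.pos] at h1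
    exact ⟨x, ⟨K, ⟨hK, h1⟩, hx⟩, rfl⟩
  · rintro ⟨x, ⟨K, ⟨hK, h1⟩, hx⟩, rfl⟩
    exact ⟨_, ⟨⟨K, hK, rfl⟩, by rwa [h.diam, mul_le_mul_iff_right₀ h.pos]⟩, x, hx, rfl⟩

theorem free (h : Sim f k) (ξ : ℝ) (T : Set (Set ℂ)) :
    Free (k * ξ) (image f '' T) = f '' Free ξ T := by
  rw [Free, Free, h.tt, ← f.image_closure, f.image_compl]

theorem all (h : Sim f k) {P : ℝ → Prop} (e : ∀ ξ > 0, P (k * ξ)) : ∀ ξ > 0, P ξ := fun ξ hξ => by
  simpa [h.pos.ne'] using e (k⁻¹ * ξ) (mul_pos (inv_pos.2 h.pos) hξ)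

theorem cov (h : Sim f k) {ε t : ℝ} {A : Set ℂ} (e : Cov ε t A) : Cov (k * ε) t (f '' A) := by
  obtain ⟨Z, h1, h2⟩ := e
  refine ⟨Z.map f.toEquiv.toEmbedding, by rwa [Finset.card_map], ?_⟩
  rintro _ ⟨y, hy, rfl⟩
  obtain ⟨z, hz, hy⟩ := mem_iUnion₂.1 (h2 hy)
  exact mem_iUnion₂.2 ⟨f z, Finset.mem_map_of_mem _ hz, h.mem_ball.2 hy⟩

theorem arm (h : Sim f k) (G A : Set ℂ) (z : ℂ) (r : ℝ) :
    Arm (f '' G) (f '' A) (f z) (k * r) ⊆ f '' Arm G A z r := by
  rintro y ⟨h1, _, ⟨w, hw, rfl⟩, h2⟩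
  obtain ⟨y, rfl⟩ := f.surjective y
  refine ⟨y, ⟨h.mem_ball.1 h1, w, hw, ?_⟩, rfl⟩
  simpa [image_image] using h2.map f.symm.continuous

theorem reach (h : Sim f k) (G : Set ℂ) (ε d : ℝ) (D : Set ℂ) :
    f '' Reach G ε d D ⊆ Reach (f '' G) (k * ε) d (f '' D) := by
  rintro _ ⟨_, ⟨γ, rfl, h1, h2, h3⟩, rfl⟩
  exact ⟨mp f γ, rfl, mem_image_of_mem f h1, by rw [range_mp]; exact image_mono h2,
    by rw [range_mp]; exact h.cov h3⟩

theorem zat (h : Sim f k) {G G' A : Set ℂ} {z : ℂ} {r ε t : ℝ} (e : Zat G G' A z r ε t) :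
    Zat (f '' G) (f '' G') (f '' A) (f z) (k * r) (k * ε) t := by
  obtain ⟨n, x, ρ, d, h1, h2, h3⟩ := e
  refine ⟨n, fun i => f (x i), fun i => k * ρ i, d, h1, fun i => ⟨mul_nonneg h.pos.le (h2 i).1,
    mul_lt_mul_of_pos_left (h2 i).2.1 h.pos, ?_⟩, fun y hy => ?_⟩
  · rw [h.cball, h.ball', ← image_inter f.injective]
    exact image_mono (h2 i).2.2
  · obtain ⟨u, hu, rfl⟩ := h.arm _ _ _ _ hy
    obtain ⟨i, hi⟩ := mem_iUnion.1 (h3 hu)
    refine mem_iUnion.2 ⟨i, ?_⟩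
    rw [h.cball, h.ball', ← image_inter f.injective]
    exact closure_mono (h.reach _ _ _ _) (f.image_closure _ ▸ mem_image_of_mem f hi)

theorem crs (h : Sim f k) {z : ℂ} {r : ℝ} {γ : Br} (e : CrsG z r γ) :
    CrsG (f z) (k * r) (mp f γ) :=
  ⟨by rw [mul_div_assoc]; exact h.mem_cball.2 e.1,
    by rw [mul_left_comm]; exact fun c => e.2 (h.mem_ball.1 c)⟩

variable {T T' : Set (Set ℂ)} {z : ℂ} {r ε t : ℝ}

theorem zle (h : Sim f k) (e : Zle T z r ε t) : Zle (image f '' T) (f z) (k * r) (k * ε) t :=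
  h.all fun ξ hξ => by
    obtain ⟨ξ', h1, h2⟩ := e ξ hξ
    refine ⟨k * ξ', mul_pos h.pos h1, ?_⟩
    rw [h.free, h.free, h.ball', ← f.image_compl]
    exact h.zat h2

theorem nle (h : Sim f k) (e : Nle T z r ε t) : Nle (image f '' T) (f z) (k * r) (k * ε) t :=
  h.all fun ξ hξ => by
    obtain ⟨γ, h1, h2, h3⟩ := e ξ hξ
    exact ⟨mp f γ, h.crs h1, by rw [range_mp, h.free]; exact image_mono h2,
      by rw [range_mp]; exact h.cov h3⟩

theorem zon (h : Sim f k) (e : Zon T z r ε t) : Zon (image f '' T) (f z) (k * r) (k * ε) t :=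
  h.all fun ξ hξ => by
    obtain ⟨ξ', h1, h2⟩ := e ξ hξ
    refine ⟨k * ξ', mul_pos h.pos h1, fun y hy y' hy' => ?_⟩
    rw [h.free, h.ball', ← f.image_compl] at hy hy'
    obtain ⟨u, hu, rfl⟩ := h.arm _ _ _ _ hy
    obtain ⟨u', hu', rfl⟩ := h.arm _ _ _ _ hy'
    obtain ⟨γ, rfl, rfl, h3, h4⟩ := h2 u hu u' hu'
    refine ⟨mp f γ, rfl, rfl, ?_, by rw [range_mp]; exact h.cov h4⟩
    rw [range_mp, h.free, h.ball', ← image_inter f.injective]
    exact image_mono h3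

theorem bb (h : Sim f k) (e : BB T z r ε) : BB (image f '' T) (f z) (k * r) (k * ε) :=
  h.all fun ξ hξ => by
    obtain ⟨γ, h1, h2, h3⟩ := e ξ hξ
    refine ⟨mp f γ, h.crs h1, by rw [range_mp, h.free]; exact image_mono h2, fun s a b => ?_⟩
    rw [mp_apply, h.dist] at a b
    rw [mul_left_comm] at b
    obtain ⟨w, hw, c⟩ := mem_thickening_iff.1
      (h3 s (le_of_mul_le_mul_left a h.pos) (le_of_mul_le_mul_left b h.pos))
    rw [mul_div_assoc, h.tt]
    exact mem_thickening_iff.2 ⟨f w, mem_image_of_mem f hw, h.mem_ball.2 c⟩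

theorem fill (h : Sim f k) {A : Set ℂ} {y : ℂ} (e : f y ∈ fill (f '' A)) : y ∈ fill A := by
  by_cases hy : y ∈ A
  · exact subset_fill _ hy
  rw [mem_fill, ← f.image_compl, ← f.image_connectedComponentIn hy] at e
  exact h.bdd.1 e

theorem noc (h : Sim f k) (e : NoC T z r) : NoC (image f '' T) (f z) (k * r) := by
  rintro _ ⟨K, hK, rfl⟩ c
  rw [mul_left_comm, h.cball z (9 * r), ← image_inter f.injective] at c
  exact e K hK fun y hy => h.fill (c (h.mem_cball.2 hy))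

theorem ole (h : Sim f k) (e : OLe z r T T') :
    OLe (f z) (k * r) (image f '' T) (image f '' T') := by
  rintro _ ⟨K, hK, rfl⟩ c
  rw [h.ball'] at c
  obtain ⟨K', h1, h2, h3⟩ := e K hK fun a => c (image_mono a)
  refine ⟨_, mem_image_of_mem _ h1, ?_, h3.imp (congrArg _) fun a => ?_⟩
  · rw [h.ball', ← image_sdiff f.injective, ← image_sdiff f.injective, h2]
  · rw [mul_left_comm, h.cball, ← image_inter f.injective, ← image_inter f.injective]
    exact ⟨a.1.image f, a.2.image f⟩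

theorem back (f : ℂ ≃ₜ ℂ) (T : Set (Set ℂ)) : image f.symm '' (image f '' T) = T := by
  simp [image_image]

end Sim

end DsimA

theorem p_DSIM (hCOV : S_COV) :
    S_DSIM := by
  intro a c ha T z r
  let f : ℂ ≃ₜ ℂ := (Homeomorph.mulLeft₀ a ha).trans (Homeomorph.addRight c)
  have h : DsimA.Sim f ‖a‖ := ⟨norm_pos_iff.2 ha, fun x y => by
    change dist (a * x + c) (a * y + c) = _
    simp [dist_eq_norm, ← mul_sub]⟩
  have e1 := DsimA.Sim.back f
  have e2 := f.symm_apply_apply z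
  have e3 : ∀ x, ‖a‖⁻¹ * (‖a‖ * x) = x := inv_mul_cancel_left₀ h.pos.ne'
  refine ⟨fun ε t => ⟨⟨fun e => ?_, h.zle⟩, ⟨fun e => ?_, h.nle⟩, fun e => ?_, h.zon⟩,
    fun δ => ⟨fun e => ?_, h.bb⟩, ⟨fun e => ?_, h.noc⟩, fun T' => ⟨fun e => ?_, h.ole⟩,
    fun S => ?_⟩
  · simpa only [e1, e2, e3] using h.symm.zle (T := image f '' T) (z := f z) e
  · simpa only [e1, e2, e3] using h.symm.nle (T := image f '' T) (z := f z) e
  · simpa only [e1, e2, e3] using h.symm.zon (T := image f '' T) (z := f z) e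
  · simpa only [e1, e2, e3] using h.symm.bb (T := image f '' T) (z := f z) e
  · simpa only [e1, e2, e3] using h.symm.noc (T := image f '' T) (z := f z) e
  · simpa only [e1, e2, e3] using
      h.symm.ole (T := image f '' T) (T' := image f '' T') (z := f z) e
  · simp only [sets, Cfg.pts_map, image_image, coe_simK]

end Pool.Agent.P.MP_d66c6d_pr
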