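import Pool.Agent.P.MP_d66c6d_pr.D.Iface
import Pool.Agent.P.MP_d66c6d_pr.S.Iface

/-! Step GRID of the carpet project. -/

namespace Pool.Agent.P.MP_d66c6d_pr

open MeasureTheory ProbabilityTheory Set Metric Filter Topology
open scoped ENNReal

namespace GridA

theorem gp_re (h : ℝ) (c : ℤ × ℤ) : (gp h c).re = h * c.1 := by simp [gp]

theorem gp_im (h : ℝ) (c : ℤ × ℤ) : (gp h c).im = h * c.2 := by simp [gp]

theorem card_Icc_le (h s x : ℝ) (hh : 0 < h) (hs : 0 ≤ s) :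
    ((Finset.Icc ⌈(x - s) / h⌉ ⌊(x + s) / h⌋).card : ℝ) ≤ 2 * s / h + 1 := by
  rw [Int.card_Icc]
  have h1 : (x - s) / h ≤ ⌈(x - s) / h⌉ := Int.le_ceil _
  have h2 : (⌊(x + s) / h⌋ : ℝ) ≤ (x + s) / h := Int.floor_le _
  have h3 : (x + s) / h - (x - s) / h = 2 * s / h := by ring
  have h4 : 0 ≤ 2 * s / h := by positivity
  rcases le_total 0 (⌊(x + s) / h⌋ + 1 - ⌈(x - s) / h⌉) with h5 | h5
  · have h6 : (((⌊(x + s) / h⌋ + 1 - ⌈(x - s) / h⌉).toNat : ℤ) : ℝ) =
        ((⌊(x + s) / h⌋ + 1 - ⌈(x - s) / h⌉ : ℤ) : ℝ) := by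
      rw [Int.toNat_of_nonneg h5]
    rw [Int.cast_natCast] at h6
    rw [h6]
    push_cast
    linarith
  · rw [Int.toNat_eq_zero.2 h5]
    push_cast
    linarith

theorem mem_Icc_of (h s x : ℝ) (hh : 0 < h) (a : ℤ) (ha : |h * a - x| ≤ s) :
    a ∈ Finset.Icc ⌈(x - s) / h⌉ ⌊(x + s) / h⌋ := by
  rw [abs_le] at ha
  rw [Finset.mem_Icc, Int.ceil_le, Int.le_floor, div_le_iff₀ hh, le_div_iff₀ hh]
  constructor <;> nlinarith [ha.1, ha.2]

theorem one (h s : ℝ) (z : ℂ) (hh : 0 < h) (hs : 0 ≤ s) : ∃ Q : Finset (ℤ × ℤ),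
    (∀ c, c ∈ Q ↔ dist (gp h c) z ≤ s) ∧ (Q.card : ℝ) ≤ (2 * s / h + 1) ^ 2 := by
  classical
  refine ⟨(Finset.Icc ⌈(z.re - s) / h⌉ ⌊(z.re + s) / h⌋ ×ˢ
    Finset.Icc ⌈(z.im - s) / h⌉ ⌊(z.im + s) / h⌋).filter (fun c => dist (gp h c) z ≤ s), ?_, ?_⟩
  · intro c
    rw [Finset.mem_filter]
    refine ⟨fun hc => hc.2, fun hc => ⟨?_, hc⟩⟩
    rw [Finset.mem_product]
    rw [dist_eq_norm] at hc
    constructor
    · apply mem_Icc_of h s _ hh
      have := (Complex.abs_re_le_norm (gp h c - z)).trans hc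
      rwa [Complex.sub_re, gp_re] at this
    · apply mem_Icc_of h s _ hh
      have := (Complex.abs_im_le_norm (gp h c - z)).trans hc
      rwa [Complex.sub_im, gp_im] at this
  · refine (Nat.cast_le.2 (Finset.card_filter_le _ _)).trans ?_
    rw [Finset.card_product, Nat.cast_mul, sq]
    exact mul_le_mul (card_Icc_le h s _ hh hs) (card_Icc_le h s _ hh hs) (Nat.cast_nonneg _)
      (by positivity)

theorem abs_round_le (h x : ℝ) (hh : 0 < h) : |h * (round (x / h) : ℤ) - x| ≤ h / 2 := by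
  have h1 := abs_sub_round (x / h)
  have h2 : h * (round (x / h) : ℤ) - x = -(h * (x / h - round (x / h))) := by
    field_simp
    ring
  rw [h2, abs_neg, abs_mul, abs_of_pos hh]
  nlinarith

theorem two (h : ℝ) (y : ℂ) (hh : 0 < h) : ∃ c, dist (gp h c) y < h := by
  refine ⟨(round (y.re / h), round (y.im / h)), ?_⟩
  have h1 := abs_round_le h y.re hh
  have h2 := abs_round_le h y.im hh
  rw [dist_eq_norm]
  apply lt_of_pow_lt_pow_left₀ 2 hh.le
  rw [Complex.sq_norm, Complex.normSq_apply, Complex.sub_re, Complex.sub_im, gp_re, gp_im]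
  rw [abs_le] at h1 h2
  simp only
  nlinarith [h1.1, h1.2, h2.1, h2.2]

theorem three (h : ℝ) (c c' : ℤ × ℤ) (hh : 0 < h) :
    h * dist c c' ≤ dist (gp h c) (gp h c') ∧ dist (gp h c) (gp h c') ≤ 2 * h * dist c c' := by
  have hre : |(gp h c - gp h c').re| = h * dist c.1 c'.1 := by
    rw [Complex.sub_re, gp_re, gp_re, ← mul_sub, abs_mul, abs_of_pos hh, Int.dist_eq]
  have him : |(gp h c - gp h c').im| = h * dist c.2 c'.2 := by
    rw [Complex.sub_im, gp_im, gp_im, ← mul_sub, abs_mul, abs_of_pos hh, Int.dist_eq]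
  rw [dist_eq_norm (gp h c), Prod.dist_eq]
  constructor
  · rw [mul_max_of_nonneg _ _ hh.le, max_le_iff, ← hre, ← him]
    exact ⟨Complex.abs_re_le_norm _, Complex.abs_im_le_norm _⟩
  · refine (Complex.norm_le_abs_re_add_abs_im _).trans ?_
    rw [hre, him]
    have h1 := le_max_left (dist c.1 c'.1) (dist c.2 c'.2)
    have h2 := le_max_right (dist c.1 c'.1) (dist c.2 c'.2)
    nlinarith

theorem four (k : ℕ) (B : Finset (ℤ × ℤ)) :
    ∃ B' ⊆ B, Sep k B' ∧ B.card ≤ (2 * k + 1) ^ 2 * B'.card := by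
  classical
  obtain ⟨B', hB', hmax⟩ := Finset.exists_max_image (B.powerset.filter (fun C => Sep k C))
    Finset.card ⟨∅, by simp [Sep]⟩
  rw [Finset.mem_filter, Finset.mem_powerset] at hB'
  refine ⟨B', hB'.1, hB'.2, ?_⟩
  have hcov : B ⊆ B'.biUnion (fun a => Finset.Icc (a.1 - k) (a.1 + k) ×ˢ
      Finset.Icc (a.2 - k) (a.2 + k)) := by
    intro b hb
    rw [Finset.mem_biUnion]
    have key : ∃ a ∈ B', dist b a ≤ k := by
      by_contra hn
      push Not at hn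
      have hb' : b ∉ B' := fun h => by
        have := hn b h
        rw [dist_self] at this
        exact absurd this (not_lt.2 (Nat.cast_nonneg k))
      have hS : Sep k (insert b B') := by
        intro u hu v hv huv
        rw [Finset.mem_insert] at hu hv
        rcases hu with rfl | hu <;> rcases hv with rfl | hv
        · exact absurd rfl huv
        · exact (hn v hv).le
        · rw [dist_comm]
          exact (hn u hu).le
        · exact hB'.2 u hu v hv huv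
      have := hmax (insert b B') (by
        rw [Finset.mem_filter, Finset.mem_powerset]
        exact ⟨Finset.insert_subset hb hB'.1, hS⟩)
      rw [Finset.card_insert_of_notMem hb'] at this
      omega
    obtain ⟨a, ha, hd⟩ := key
    refine ⟨a, ha, ?_⟩
    rw [Prod.dist_eq, max_le_iff, Int.dist_eq, Int.dist_eq, abs_le, abs_le] at hd
    obtain ⟨⟨h1, h2⟩, h3, h4⟩ := hd
    have h1' : -(k : ℤ) ≤ b.1 - a.1 := by exact_mod_cast h1
    have h2' : b.1 - a.1 ≤ (k : ℤ) := by exact_mod_cast h2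
    have h3' : -(k : ℤ) ≤ b.2 - a.2 := by exact_mod_cast h3
    have h4' : b.2 - a.2 ≤ (k : ℤ) := by exact_mod_cast h4
    simp only [Finset.mem_product, Finset.mem_Icc]
    omega
  refine (Finset.card_le_card hcov).trans ((Finset.card_biUnion_le_card_mul _ _
    ((2 * k + 1) ^ 2) fun a _ => ?_).trans (mul_comm _ _).le)
  rw [Finset.card_product, Int.card_Icc, Int.card_Icc, sq]
  have h1 : (a.1 + k + 1 - (a.1 - k)).toNat = 2 * k + 1 := by omega
  have h2 : (a.2 + k + 1 - (a.2 - k)).toNat = 2 * k + 1 := by omega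
  rw [h1, h2]

theorem five (h ε t : ℝ) (A : Set ℂ) (hh : 0 < h) (hε : ε ≤ 2 * h) (hA : Cov ε t A) :
    (cells h A).Finite ∧ ((cells h A).ncard : ℝ) ≤ 49 * t := by
  classical
  obtain ⟨Z, hZ, hAZ⟩ := hA
  choose Q hQ hc using fun ζ : ℂ => one h (3 * h) ζ hh (by positivity)
  have h7 : (2 * (3 * h) / h + 1) ^ 2 = 49 := by
    field_simp
    norm_num
  have hsub : cells h A ⊆ (Z.biUnion Q : Finset (ℤ × ℤ)) := by
    rintro c ⟨x, hx, hxc⟩
    obtain ⟨ζ, hζ, hxζ⟩ := mem_iUnion₂.1 (hAZ hx)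
    rw [Finset.mem_coe, Finset.mem_biUnion]
    refine ⟨ζ, hζ, (hQ ζ c).2 ?_⟩
    rw [mem_closedBall] at hxc
    rw [mem_ball] at hxζ
    have := dist_triangle_left (gp h c) ζ x
    linarith
  refine ⟨(Finset.finite_toSet _).subset hsub, ?_⟩
  have h1 : (cells h A).ncard ≤ Z.card * 49 := by
    refine (ncard_le_ncard hsub (Finset.finite_toSet _)).trans ?_
    rw [ncard_coe_finset]
    refine Finset.card_biUnion_le_card_mul _ _ _ fun ζ _ => ?_
    have := hc ζ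
    rw [h7] at this
    exact_mod_cast this
  have h2 : ((cells h A).ncard : ℝ) ≤ Z.card * 49 := by exact_mod_cast h1
  linarith

theorem norm_le {h : ℝ} {γ : Br} (hγ : γ ∈ CrsB) {c : ℤ × ℤ} (hc : c ∈ cells h (range γ)) :
    dist (gp h c) 0 ≤ 31 / 20 + h := by
  obtain ⟨x, hx, hxc⟩ := hc
  have h1 := hγ.2 hx
  rw [mem_closedBall] at h1 hxc
  have := dist_triangle_left (gp h c) 0 x
  linarith

theorem six (hCELLS : S_CELLS) (T : Set (Set ℂ)) (r : ℝ) (B : Finset (ℤ × ℤ)) (hr : 0 < r)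
    (hr1 : r ≤ 1) (hS : Skel T r B) : Ani (r / 2) B ∧ (B.card : ℝ) ≤ (12 / r + 1) ^ 2 := by
  obtain ⟨γ, ⟨hγ, hB⟩, -⟩ := hS 1 one_pos
  obtain ⟨-, h2, h3, h4, -⟩ := hCELLS (r / 2) (range γ) (by positivity)
    (isCompact_range γ.continuous) (isPreconnected_range γ.continuous)
  have h3' : ∀ c ∈ B, dist (gp (r / 2) c) 0 ≤ 3 := fun c hc => by
    have := norm_le (h := r / 2) hγ (c := c) (by rw [hB]; exact hc)
    linarith
  refine ⟨⟨?_, fun c hc => by simpa using h3' c hc, ?_⟩, ?_⟩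
  · obtain ⟨c, hc, -⟩ := h3 (γ 0) ⟨0, rfl⟩
    exact ⟨c, hB ▸ h2 c hc⟩
  · have h5 := h4 (γ 0) ⟨0, rfl⟩ (γ 1) ⟨1, rfl⟩
    rw [hB, ncard_coe_finset] at h5
    have h6 := hγ.1.1
    have h7 := hγ.1.2
    rw [mem_closedBall] at h6
    rw [mem_ball, not_lt] at h7
    have h8 := dist_triangle (γ 1) (γ 0) 0
    rw [dist_comm (γ 1) (γ 0)] at h8
    have h9 : 0 ≤ r * B.card := by positivity
    nlinarith
  · obtain ⟨Q, hQ, hc⟩ := one (r / 2) 3 0 (by positivity) (by norm_num)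
    have h5 : B ⊆ Q := fun c hc => (hQ c).2 (h3' c hc)
    have h6 : 2 * 3 / (r / 2) + 1 = 12 / r + 1 := by
      field_simp
      norm_num
    rw [h6] at hc
    exact (Nat.cast_le.2 (Finset.card_le_card h5)).trans hc

theorem seven (T : Set (Set ℂ)) (r : ℝ) (F : Set Br) (hr : 0 < r) (hF : F ⊆ CrsB)
    (hV : Via T F) : ∃ B : Finset (ℤ × ℤ), Via T {γ ∈ F | cells (r / 2) (range γ) = B} := by
  obtain ⟨Q, hQ, -⟩ := one (r / 2) (31 / 20 + r / 2) 0 (by positivity) (by positivity)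
  have hsub : ∀ γ ∈ F, cells (r / 2) (range γ) ⊆ Q := fun γ hγ c hc =>
    (hQ c).2 (norm_le (hF hγ) hc)
  obtain ⟨b, hb⟩ := hV.pigeon (fun γ => cells (r / 2) (range γ))
    ((Finset.finite_toSet Q).finite_subsets.subset (by
      rintro _ ⟨γ, hγ, rfl⟩
      exact hsub γ hγ))
  obtain ⟨γ, ⟨hγ, hγb⟩, -⟩ := hb 1 one_pos
  have hfin : b.Finite := (Finset.finite_toSet Q).subset (hγb ▸ hsub γ hγ)
  refine ⟨hfin.toFinset, ?_⟩
  rw [hfin.coe_toFinset]
  exact hb

end GridA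

theorem p_GRID (hCELLS : S_CELLS) (hDMON : S_DMON) :
    S_GRID :=
  ⟨GridA.one, GridA.two, GridA.three, GridA.four, GridA.five, GridA.six hCELLS, GridA.seven⟩

end Pool.Agent.P.MP_d66c6d_pr
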