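import Pool.Agent.P.MP_d66c6d_pr.G.Defs2
import Pool.Agent.P.MP_d66c6d_pr.A.Iface
import Pool.Agent.P.MP_d66c6d_pr.S.Iface
import Pool.Agent.P.MP_d66c6d_pr.R.Iface

/-!
Deterministic properties of the local functionals, and measurability.
-/

namespace Pool.Agent.P.MP_d66c6d_pr

open MeasureTheory ProbabilityTheory Set Metric Filter Topology
open scoped ENNReal

-- deps:
/-- Stopping of paths at a circle, and monotonicity. -/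
def S_DMON : Prop :=
  (∀ (γ : Br) (z : ℂ) (r : ℝ), γ 0 ∈ closedBall z r → ¬ range γ ⊆ ball z r → ∃ γ' : Br,
    γ' 0 = γ 0 ∧ γ' 1 ∈ sphere z r ∧ range γ' ⊆ range γ ∩ closedBall z r) ∧
  (∀ (γ : Br) (z : ℂ) (r : ℝ), 0 < r → (range γ ∩ closedBall z (r / 2)).Nonempty →
    ¬ range γ ⊆ ball z (31 / 20 * r) → ∃ γ' : Br, CrsG z r γ' ∧
      range γ' ⊆ range γ ∩ closedBall z (31 / 20 * r)) ∧
  (∀ (T : Set (Set ℂ)) (ε t : ℝ), Nle T 0 1 ε t ↔ Via T {γ ∈ CrsB | Cov ε t (range γ)}) ∧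
  (∀ (T : Set (Set ℂ)) (A A' : Set ℂ) (z : ℂ) (r ε ε' t t' : ℝ), A' ⊆ A → ε ≤ ε' → t ≤ t' →
    ZleA T A z r ε t → ZleA T A' z r ε' t') ∧
  (∀ (T T' : Set (Set ℂ)) (z : ℂ) (r ε ε' t t' : ℝ), T ⊆ T' → ε ≤ ε' → t ≤ t' →
    Nle T' z r ε t → Nle T z r ε' t') ∧
  (∀ (T T' : Set (Set ℂ)) (A A' : Set ℂ) (ε ε' t t' : ℝ), T ⊆ T' → A ⊆ A' → ε ≤ ε' → t ≤ t' →
    NleA T' A ε t → NleA T A' ε' t') ∧
  (∀ (T : Set (Set ℂ)) (z : ℂ) (r ε ε' t t' : ℝ), ε ≤ ε' → t ≤ t' → Zon T z r ε t →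
    Zon T z r ε' t') ∧
  (∀ (T : Set (Set ℂ)) (z : ℂ) (r δ δ' : ℝ), δ ≤ δ' → BB T z r δ → BB T z r δ') ∧
  (∀ (T : Set (Set ℂ)) (A : Set ℂ) (δ δ' : ℝ), δ ≤ δ' → BBA T A δ → BBA T A δ') ∧
  (∀ (T : Set (Set ℂ)) (z : ℂ) (r ε t : ℝ), Nle T z r ε t → 1 ≤ t) ∧
  ∀ (T : Set (Set ℂ)) (ε t : ℝ), Nle T 0 1 ε t →
    ∃ n : ℕ, (n : ℝ) ≤ t ∧ Nle T 0 1 ε n ∧ ∀ t' : ℝ, Nle T 0 1 ε t' → (n : ℝ) ≤ t'

-- deps: DMON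
/-- Locality. -/
def S_DLOC : Prop := ∀ (T T' : Set (Set ℂ)) (z : ℂ) (r ξ₀ : ℝ), 0 < r → 0 < ξ₀ →
  Same (ball z (2 * r)) ξ₀ T T' →
  (∀ ε t, (Zle T z r ε t → Zle T' z r ε t) ∧ (Nle T z r ε t → Nle T' z r ε t) ∧
    (Zon T z r ε t → Zon T' z r ε t)) ∧
  ∀ δ, r / 25 ≤ ξ₀ → δ ≤ r / 2 → BB T z r δ → BB T' z r δ

-- deps: COV
-- imports: Pool.Agent.P.MP_d66c6d_pr.S.Surr
/-- Covariance under similarities. -/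
def S_DSIM : Prop := ∀ (a c : ℂ), a ≠ 0 → ∀ (T : Set (Set ℂ)) (z : ℂ) (r : ℝ),
  (∀ ε t, (Zle (image (fun z => a * z + c) '' T) (a * z + c) (‖a‖ * r) (‖a‖ * ε) t ↔
      Zle T z r ε t) ∧
    (Nle (image (fun z => a * z + c) '' T) (a * z + c) (‖a‖ * r) (‖a‖ * ε) t ↔ Nle T z r ε t) ∧
    (Zon (image (fun z => a * z + c) '' T) (a * z + c) (‖a‖ * r) (‖a‖ * ε) t ↔ Zon T z r ε t)) ∧
  (∀ δ, BB (image (fun z => a * z + c) '' T) (a * z + c) (‖a‖ * r) (‖a‖ * δ) ↔ BB T z r δ) ∧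
  (NoC (image (fun z => a * z + c) '' T) (a * z + c) (‖a‖ * r) ↔ NoC T z r) ∧
  (∀ T', OLe (a * z + c) (‖a‖ * r) (image (fun z => a * z + c) '' T)
    (image (fun z => a * z + c) '' T') ↔ OLe z r T T') ∧
  ∀ S : Cfg KC, sets (S.map (simK a c)) = image (fun z => a * z + c) '' sets S

-- deps:
/-- Measurability of the events of free paths. -/
def S_DMEA : Prop :=
  (∀ (F : Set Br) (ξ : ℝ), MeasurableSet {S : Cfg KC | ∃ γ ∈ F, range γ ⊆ Free ξ (sets S)}) ∧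
  (∀ F : Set Br, MeasurableSet {S : Cfg KC | Via (sets S) F}) ∧
  (∀ z r ε t, MeasurableSet (NE z r ε t)) ∧
  (∀ A ε t, MeasurableSet {S : Cfg KC | NleA (sets S) A ε t}) ∧
  (∀ z ρ, MeasurableSet (NoCE z ρ)) ∧ MeasurableSet {S : Cfg KC | Near (sets S)}

-- deps: DMEA
/-- Measurability of the connection cost. -/
def S_DMEZ : Prop := ∀ A z r ε t, MeasurableSet {S : Cfg KC | ZleA (sets S) A z r ε t}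

-- deps:
/-- Measurability of the hugging events. -/
def S_DMEB : Prop := (∀ z r δ, MeasurableSet (BE z r δ)) ∧
  ∀ A δ, MeasurableSet {S : Cfg KC | BBA (sets S) A δ}

-- deps: RJAN FILL
/-- A path that avoids the cores can be moved off the obstacles. -/
def S_JAN2 : Prop := ∀ (ι : Type) [Finite ι] (w : ℝ) (F : ι → Set ℂ) (𝒜 : ι → Set (Set ℂ))
  (σ : Br), 0 < w → Obs w F 𝒜 → (∀ i, Disjoint (range σ) (F i)) →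
  (∀ i, σ 0 ∉ fill (ob F 𝒜 i) ∧ σ 1 ∉ fill (ob F 𝒜 i)) →
  ∃ σ' : Br, σ' 0 = σ 0 ∧ σ' 1 = σ 1 ∧ range σ' ⊆ thickening (2 * w) (range σ) ∧
    ∀ i, Disjoint (range σ') (ob F 𝒜 i)

-- deps: RJAN RDTR FILL DMON
-- imports: Pool.Agent.P.MP_d66c6d_pr.S.Surr
/-- Detours around small clusters. -/
def S_DETT : Prop :=
  (∀ (T : Set (Set ℂ)) (O : Set ℂ) (w ξ : ℝ) (σ : Br), Tame T → 0 < w → 0 < ξ → Sm T O w →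
    thickening (4 * w) (range σ) ⊆ O →
    (∃ u ∉ ball (σ 0) (5 * w), JoinedIn (Free ξ T) (σ 0) u) →
    (∃ u ∉ ball (σ 1) (5 * w), JoinedIn (Free ξ T) (σ 1) u) →
    ∃ σ' : Br, σ' 0 = σ 0 ∧ σ' 1 = σ 1 ∧ range σ' ⊆ Free ξ T ∩ thickening (4 * w) (range σ)) ∧
  ∀ T : Set (Set ℂ), Tame T → Sm T (ball 0 2) (1 / 100) → Nle T 0 1 2 1

-- deps:
-- imports: Pool.Agent.P.MP_d66c6d_pr.S.Surr
/-- A long free path excludes enclosing loops. -/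
def S_BLK : Prop := ∀ (T : Set (Set ℂ)) (z y w : ℂ) (ρ ξ : ℝ), Cpt T → 0 < ρ → ξ ≤ ρ →
  y ∈ closedBall z ρ → w ∉ closedBall z (9 * ρ) → JoinedIn (Free ξ T) y w → NoC T z ρ

-- deps: BLK
/-- Subadditivity of the connection cost. -/
def S_ZONE : Prop := ∀ (T : Set (Set ℂ)) (L r ε : ℝ) (B : Finset ℂ) (t : ℂ → ℝ), Cpt T → 10 ≤ L →
  0 < r → 100 * L * r ≤ 1 → (∀ y ∈ ball (0 : ℂ) 1, ∃ z ∈ B, y ∈ ball z r) →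
  (∀ z ∈ B, ‖z‖ ≤ 1 + r ∧ 0 ≤ t z ∧ (NoC T z (L * r) → Zle T z r ε (t z))) →
  Zle T 0 1 ε (∑ z ∈ B, t z)

-- deps: BLK DMON
/-- The number of classes is bounded through any intermediate circle. -/
def S_ZTWO : Prop := ∀ (T : Set (Set ℂ)) (L r ε s : ℝ) (B : Finset ℂ) (t : ℂ → ℝ), Cpt T →
  10 ≤ L → 0 < r → 100 * L * r ≤ 1 → 1 ≤ s → s ≤ 6 / 5 → ε ≤ 3 →
  (∀ y ∈ sphere (0 : ℂ) s, ∃ z ∈ B, y ∈ ball z r) →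
  (∀ z ∈ B, ‖z‖ ≤ s + r ∧ 0 ≤ t z ∧ (NoC T z (L * r) → Zle T z r ε (t z))) →
  Zle T 0 1 3 (2 * ∑ z ∈ B, t z)

-- deps: COV
/-- From the number of classes to the cost at any scale. -/
def S_ZTHR : Prop := ∀ (T : Set (Set ℂ)) (ε t : ℝ), 0 < ε → ε ≤ 1 → Zle T 0 1 3 t →
  Zle T 0 1 ε (200 / ε ^ 2 * t)

-- deps:
/-- Replacement of a path by a cheap path. -/
def S_ZREP : Prop := ∀ (T : Set (Set ℂ)) (r ε : ℝ) (B : Finset ℂ) (t : ℂ → ℝ), 0 < r →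
  (∀ z ∈ B, Zle T z r ε (t z)) → ∀ ξ > (0 : ℝ), ∃ ξ' > (0 : ℝ), ∀ B' ⊆ B, ∀ γ : Br,
    range γ ⊆ Free ξ' T ∩ ⋃ z ∈ B', ball z r →
    (∀ z ∈ B', ∃ u ∉ ball z (31 / 20 * r), JoinedIn (Free ξ' T) (γ 0) u) →
    ∃ γ' : Br, γ' 0 = γ 0 ∧ γ' 1 = γ 1 ∧ range γ' ⊆ Free ξ T ∩ ⋃ z ∈ B', ball z (2 * r) ∧
      Cov ε (3 * ∑ z ∈ B', t z) (range γ')

-- deps: CELLS DMON
/-- Grids, cells and skeletons. -/
def S_GRID : Prop :=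
  (∀ (h s : ℝ) (z : ℂ), 0 < h → 0 ≤ s → ∃ Q : Finset (ℤ × ℤ), (∀ c, c ∈ Q ↔ dist (gp h c) z ≤ s) ∧
    (Q.card : ℝ) ≤ (2 * s / h + 1) ^ 2) ∧
  (∀ (h : ℝ) (y : ℂ), 0 < h → ∃ c, dist (gp h c) y < h) ∧
  (∀ (h : ℝ) (c c' : ℤ × ℤ), 0 < h →
    h * dist c c' ≤ dist (gp h c) (gp h c') ∧ dist (gp h c) (gp h c') ≤ 2 * h * dist c c') ∧
  (∀ (k : ℕ) (B : Finset (ℤ × ℤ)), ∃ B' ⊆ B, Sep k B' ∧ B.card ≤ (2 * k + 1) ^ 2 * B'.card) ∧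
  (∀ (h ε t : ℝ) (A : Set ℂ), 0 < h → ε ≤ 2 * h → Cov ε t A → (cells h A).Finite ∧
    ((cells h A).ncard : ℝ) ≤ 49 * t) ∧
  (∀ (T : Set (Set ℂ)) (r : ℝ) (B : Finset (ℤ × ℤ)), 0 < r → r ≤ 1 → Skel T r B →
    Ani (r / 2) B ∧ (B.card : ℝ) ≤ (12 / r + 1) ^ 2) ∧
  ∀ (T : Set (Set ℂ)) (r : ℝ) (F : Set Br), 0 < r → F ⊆ CrsB → Via T F →
    ∃ B : Finset (ℤ × ℤ), Via T {γ ∈ F | cells (r / 2) (range γ) = B}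

-- deps: DETT ZREP GRID COV
/-- Small clusters and cheap cells give cheap connections. -/
def S_ZFIV : Prop := ∀ (T : Set (Set ℂ)) (z : ℂ) (r g w ε t : ℝ), Tame T → 0 < g → g ≤ w →
  100 * w ≤ r → 0 ≤ t → Sm T (ball z (2 * r)) w →
  (∀ c, dist (gp (g / 2) c) z ≤ 2 * r → Zle T (gp (g / 2) c) g ε t) →
  Zon T z r ε (10 ^ 7 * (r / g) * (w / g) * t)

-- deps: DMON
/-- The gain on a family of separated discs. -/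
def S_ZGAI : Prop := ∀ (T₀ T₁ : Set (Set ℂ)) (r ε n u v : ℝ) (I : Finset ℂ), T₀ ⊆ T₁ → 0 < ε →
  40 * ε ≤ r → r ≤ 1 / 10 → (∀ z ∈ I, ∀ z' ∈ I, z ≠ z' → 5 * r ≤ dist z z') →
  Via T₁ {γ ∈ CrsB | Cov ε n (range γ) ∧ ∀ z ∈ I, (range γ ∩ closedBall z (r / 2)).Nonempty} →
  0 ≤ v → (∀ z ∈ I, ¬ Nle T₁ z r ε u ∧ Zon T₀ z (7 / 4 * r) ε v) →
  Nle T₀ 0 1 ε (n - I.card * (u - v))

-- deps: DMON GRID BLK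
/-- Selection of separated cells far from the big loops. -/
def S_SEL : Prop := ∀ (T₀ T₁ : Set (Set ℂ)) (L R r δ ε n : ℝ) (bad : ℤ × ℤ → Prop), Cpt T₀ →
  T₀ ⊆ T₁ → (∀ K ∈ T₁, R / 25 ≤ diam K → K ∈ T₀) → 10 ≤ L → 0 < r → 10 * r ≤ R →
  100 * L * R ≤ 1 → 5 * r ≤ δ * R → Nle T₁ 0 1 ε n →
  (∀ B : Finset (ℤ × ℤ), Ani (R / 2) B → 2 * {b | b ∈ B ∧ bad b}.ncard ≤ B.card) →
  (∀ b, ¬ bad b → NoC T₀ (gp (R / 2) b) (L * R) → ¬ BB T₀ (gp (R / 2) b) R (δ * R)) →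
  ∃ B I : Finset (ℤ × ℤ), Skel T₁ R B ∧ B.card ≤ 578 * I.card ∧
    Via T₁ {γ ∈ CrsB | Cov ε n (range γ) ∧
      ∀ c ∈ I, (range γ ∩ closedBall (gp (r / 2) c) (r / 2)).Nonempty} ∧
    (∀ c ∈ I, Disjoint (ball (gp (r / 2) c) (4 * r)) (TT (R / 25) T₁) ∧
      NoC T₀ (gp (r / 2) c) (L * r) ∧ ∃ b, ¬ bad b ∧ NoC T₀ (gp (R / 2) b) (L * R) ∧
        dist (gp (r / 2) c) (gp (R / 2) b) ≤ 3 / 2 * R) ∧
    ∀ c ∈ I, ∀ c' ∈ I, c ≠ c' → R ≤ dist (gp (r / 2) c) (gp (r / 2) c')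

-- deps: DMON
/-- From the completions to the local configuration, and from a domain to the disc. -/
def S_CZN : Prop :=
  (∀ (R : ℝ) (X : Set (Set ℂ)) (J : ℕ) (𝒯 : Fin J → Set (Set ℂ)), Compl R X 𝒯 →
    (∀ ε t, (∀ i, ZleA (𝒯 i) (ball 0 R)ᶜ 0 1 ε t) → Zle X 0 1 ε (J * t)) ∧
    (∀ ε t, Nle X 0 1 ε t → ∃ i, NleA (𝒯 i) (ball 0 R)ᶜ ε t) ∧
    ∀ δ, δ ≤ 1 / 20 → BB X 0 1 δ → ∃ i, BBA (𝒯 i) (ball 0 R)ᶜ δ) ∧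
  ∀ (R : ℝ) (V : Set ℂ) (T : Set (Set ℂ)), Near T → ball 0 3 ⊆ V → V ⊆ ball 0 R →
    ∀ ε t, ZleA (ins V T) Vᶜ 0 1 ε t → ZleA T (ball 0 R)ᶜ 0 1 ε t

end Pool.Agent.P.MP_d66c6d_pr
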