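import Pool.Agent.P.MP_d66c6d_pr.D.Iface
import Pool.Agent.P.MP_d66c6d_pr.R.Iface
import Pool.Agent.P.MP_d66c6d_pr.T.Iface

/-! Step JAN2 of the carpet project. -/

namespace Pool.Agent.P.MP_d66c6d_pr

open MeasureTheory ProbabilityTheory Set Metric Filter Topology
open scoped ENNReal

theorem p_JAN2 (hRJAN : S_RJAN) (hFILL : S_FILL) :
    S_JAN2 := by
  intro ι _ w F 𝒜 σ hw hO hF he
  have hR : IsCompact (range σ) := isCompact_range σ.continuous
  set U := thickening (2 * w) (range σ) with hU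
  have hRU : range σ ⊆ U := self_subset_thickening (by linarith) _
  let far : ι → Set (Set ℂ) := fun i => {P ∈ 𝒜 i | ¬ P ⊆ U}
  let G : ι → Set ℂ := fun i => F i ∪ ⋃₀ far i
  have hfar : ∀ i, far i ⊆ 𝒜 i := fun i => sep_subset _ _
  have hGo : ∀ i, G i ⊆ ob F 𝒜 i := fun i => union_subset_union_right _ (sUnion_subset_sUnion (hfar i))
  have hc : ∀ i, ∀ 𝒬 ⊆ 𝒜 i, IsCompact (F i ∪ ⋃₀ 𝒬) := fun i 𝒬 h =>
    (hO.cF i).union (((hO.fin i).subset h).isCompact_sUnion fun P hP => (hO.cP i P (h hP)).1)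
  have hob : ∀ i, IsCompact (ob F 𝒜 i) := fun i => hc i _ Subset.rfl
  let C : Set ℂ := (cthickening (2 * w) (range σ) \ U) ∪ ⋃ i, G i
  have hC : IsCompact C :=
    (hR.cthickening.diff isOpen_thickening).union (isCompact_iUnion fun i => hc i _ (hfar i))
  have hCo : ∀ i, C ∩ ob F 𝒜 i = G i := by
    intro i
    refine Subset.antisymm ?_ fun x hx => ⟨Or.inr (mem_iUnion.2 ⟨i, hx⟩), hGo i hx⟩
    rintro x ⟨h1 | h1, h2⟩
    · rcases h2 with h2 | ⟨P, hP, h2⟩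
      · exact Or.inl h2
      · exact Or.inr ⟨P, ⟨hP, fun h => h1.2 (h h2)⟩, h2⟩
    · obtain ⟨j, hj⟩ := mem_iUnion.1 h1
      by_cases e : j = i
      · exact e ▸ hj
      · exact absurd h2 (disjoint_left.1 (hO.disj e) (hGo j hj))
  have hσ : range σ ⊆ Cᶜ := by
    rintro x hx (h | h)
    · exact h.2 (hRU hx)
    · obtain ⟨i, h | ⟨P, hP, h⟩⟩ := mem_iUnion.1 h
      · exact disjoint_left.1 (hF i) hx h
      · refine hP.2 fun p hp => mem_thickening_iff.2 ⟨x, hx, ?_⟩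
        obtain ⟨h1, h2⟩ := hO.cP i P hP.1
        linarith [dist_le_diam_of_mem h1.isBounded hp h]
  have hJ := hRJAN.1 C (range (ob F 𝒜)) (σ 0) (σ 1) hC (finite_range _)
    (by rintro _ ⟨i, rfl⟩; exact hob i)
    (by
      rintro _ ⟨i, rfl⟩ _ ⟨j, rfl⟩ h
      exact hO.disj fun e => h (by rw [e]))
    (by
      rintro _ ⟨i, rfl⟩
      rw [hCo]
      exact hO.con i _ (hfar i))
    (joinedIn_iff_br.2 ⟨σ, rfl, rfl, hσ⟩)
    (by
      rintro _ ⟨i, rfl⟩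
      exact ((hFILL _ (hob i)).2.2.2.2.2.2.2.1 _ (he i).1 _ (he i).2).mono
        (compl_subset_compl.2 (subset_fill _)))
  obtain ⟨σ', h0, h1, h⟩ := joinedIn_iff_br.1 hJ
  refine ⟨σ', h0, h1, ?_, fun i => disjoint_left.2 fun x hx h' =>
    h hx (Or.inr ⟨_, ⟨i, rfl⟩, h'⟩)⟩
  refine (isPreconnected_range σ'.continuous).subset_of_closure_inter_subset isOpen_thickening
    ⟨σ' 0, ⟨0, rfl⟩, h0 ▸ hRU ⟨0, rfl⟩⟩ ?_
  rintro x ⟨h2, h3⟩
  by_contra h4
  exact h h3 (Or.inl (Or.inl ⟨closure_thickening_subset_cthickening _ _ h2, h4⟩))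

end Pool.Agent.P.MP_d66c6d_pr
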