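import Pool.Agent.P.MP_d66c6d_pr.D.Iface

/-! Step SEL of the carpet project. -/

namespace Pool.Agent.P.MP_d66c6d_pr

open MeasureTheory ProbabilityTheory Set Metric Filter Topology
open scoped ENNReal

namespace SelA

theorem far {γ : Br} (h : γ ∈ CrsB) (z : ℂ) {s : ℝ} (hs : s ≤ 1 / 2) :
    ∃ w ∈ range γ, w ∉ closedBall z s := by
  by_contra hn
  push Not at hn
  have h0 := mem_closedBall.1 (hn _ (mem_range_self 0))
  have h1 := mem_closedBall.1 (hn _ (mem_range_self 1))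
  have h2 := mem_closedBall.1 h.1.1
  have h3 := not_lt.1 fun e => h.1.2 (mem_ball.2 e)
  have h4 := dist_triangle_right (γ 1) (γ 0) z
  have h5 := dist_triangle (γ 1) (γ 0) 0
  linarith

theorem joined (γ : Br) : IsPathConnected (range γ) := by
  have : PathConnectedSpace unitInterval := isPathConnected_iff_pathConnectedSpace.1
    ((convex_Icc (0 : ℝ) 1).isPathConnected ⟨0, by simp⟩)
  exact isPathConnected_range γ.continuous

theorem noc (hBLK : S_BLK) {T₀ T₁ : Set (Set ℂ)} (hc : Cpt T₀) (hT : T₀ ⊆ T₁) {F : Set Br}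
    (hF : F ⊆ CrsB) (hV : Via T₁ F) {h ρ : ℝ} (h0 : 0 < h) (h1 : h ≤ ρ) (h2 : 100 * ρ ≤ 1)
    {c : ℤ × ℤ} (hcell : ∀ γ ∈ F, c ∈ cells h (range γ)) : NoC T₀ (gp h c) ρ := by
  have hρ : 0 < ρ := h0.trans_le h1
  obtain ⟨γ, hγ, hf⟩ := hV ρ hρ
  obtain ⟨y, hy, hy'⟩ := hcell γ hγ
  obtain ⟨w, hw, hw'⟩ := far (hF hγ) (gp h c) (s := 9 * ρ) (by linarith)
  exact hBLK T₀ _ y w ρ ρ hc hρ le_rfl (closedBall_subset_closedBall h1 hy') hw'
    (((joined γ).joinedIn y hy w hw).mono (hf.trans (Free_mono le_rfl hT)))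

theorem half (B : Finset (ℤ × ℤ)) (bad : ℤ × ℤ → Prop) [DecidablePred bad]
    (h : 2 * {b | b ∈ B ∧ bad b}.ncard ≤ B.card) :
    B.card ≤ 2 * (B.filter fun b => ¬ bad b).card := by
  have h1 : {b | b ∈ B ∧ bad b} = (B.filter bad : Finset (ℤ × ℤ)) := by
    ext b
    simp
  rw [h1, ncard_coe_finset] at h
  have := Finset.card_filter_add_card_filter_not (s := B) bad
  omega

end SelA

theorem p_SEL (hDMON : S_DMON) (hGRID : S_GRID) (hBLK : S_BLK) :
    S_SEL := by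
  classical
  intro T₀ T₁ L R r δ ε n bad hc hT hbig hL hr hrR hLR hδ hN hbad hBB
  obtain ⟨-, hD2, hD3, -⟩ := hDMON
  obtain ⟨-, hG2, hG3, hG4, -, hG6, hG7⟩ := hGRID
  have hR : 0 < R := by linarith
  have hR1 : 10 * R ≤ L * R := by nlinarith
  have hr1 : 10 * r ≤ L * r := by nlinarith
  have hr2 : L * r ≤ L * R := by nlinarith
  obtain ⟨B, hB⟩ := hG7 T₁ R _ hR (fun _ h => h.1) ((hD3 T₁ ε n).1 hN)
  obtain ⟨C, hC⟩ := hG7 T₁ r _ hr (fun _ h => h.1.1) hB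
  have hS : Skel T₁ R B := hB.mono Subset.rfl fun γ h => ⟨h.1.1, h.2⟩
  obtain ⟨B', hB1, hB2, hB3⟩ := hG4 8 (B.filter fun b => ¬ bad b)
  have hcard := SelA.half B bad (hbad B (hG6 T₁ R B hR (by linarith) hS).1)
  have key : ∀ b ∈ B', ∃ c ∈ C, Disjoint (ball (gp (r / 2) c) (4 * r)) (TT (R / 25) T₁) ∧
      NoC T₀ (gp (R / 2) b) (L * R) ∧ dist (gp (r / 2) c) (gp (R / 2) b) ≤ 3 / 2 * R := by
    intro b hb
    obtain ⟨hb1, hb2⟩ := Finset.mem_filter.1 (hB1 hb)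
    have hn : NoC T₀ (gp (R / 2) b) (L * R) :=
      SelA.noc hBLK hc hT (fun _ h => h.1.1) hB (by linarith) (by linarith) (by linarith)
        fun γ h => h.2 ▸ Finset.mem_coe.2 hb1
    have h1 := hBB b hb2 hn
    simp only [BB, not_forall, not_exists, not_and] at h1
    obtain ⟨ξ, hξ, h1⟩ := h1
    obtain ⟨γ, ⟨⟨⟨g1, -⟩, g2⟩, g3⟩, g4⟩ := hC ξ hξ
    have g5 : b ∈ cells (R / 2) (range γ) := g2 ▸ Finset.mem_coe.2 hb1
    obtain ⟨w, hw, hw'⟩ := SelA.far g1 (gp (R / 2) b) (s := 31 / 20 * R) (by linarith)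
    obtain ⟨γ', k1, k2⟩ := hD2 γ _ R hR g5 fun h => hw' (ball_subset_closedBall (h hw))
    have k3 := h1 γ' k1 ((k2.trans inter_subset_left).trans (g4.trans (Free_mono le_rfl hT)))
    simp only [Hug, not_forall] at k3
    obtain ⟨s, -, s2, s3⟩ := k3
    obtain ⟨c, hc1⟩ := hG2 (r / 2) (γ' s) (by linarith)
    have hc2 : c ∈ cells (r / 2) (range γ) :=
      ⟨γ' s, (k2 (mem_range_self s)).1, mem_closedBall'.2 hc1.le⟩
    refine ⟨c, Finset.mem_coe.1 (g3 ▸ hc2), Set.disjoint_left.2 fun x hx hx' => s3 ?_, hn, ?_⟩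
    · obtain ⟨K, m1, m2, m3⟩ := mem_TT.1 hx'
      refine mem_thickening_iff.2 ⟨x, mem_TT.2 ⟨K, hbig K m1 m2, m2, m3⟩, ?_⟩
      have := dist_triangle_left (γ' s) x (gp (r / 2) c)
      have := mem_ball'.1 hx
      linarith
    · have := dist_triangle (gp (r / 2) c) (γ' s) (gp (R / 2) b)
      linarith
  choose! f hf1 hf2 hf3 hf4 using key
  have hsep : ∀ b ∈ B', ∀ b' ∈ B', b ≠ b' → R ≤ dist (gp (r / 2) (f b)) (gp (r / 2) (f b')) := by
    intro b hb b' hb' h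
    have h1 := (hG3 (R / 2) b b' (by linarith)).1
    have h2 : ((8 : ℕ) : ℝ) ≤ dist b b' := hB2 b hb b' hb' h
    have h3 := dist_triangle4_left (gp (r / 2) (f b)) (gp (r / 2) (f b')) (gp (R / 2) b)
      (gp (R / 2) b')
    have h4 := hf4 b hb
    have h5 := hf4 b' hb'
    have h6 : R / 2 * 8 ≤ R / 2 * dist b b' :=
      mul_le_mul_of_nonneg_left (by exact_mod_cast h2) (by linarith)
    linarith
  have hinj : InjOn f B' := fun b hb b' hb' h => by
    by_contra h'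
    have := hsep b hb b' hb' h'
    rw [h, dist_self] at this
    linarith
  refine ⟨B, B'.image f, hS, ?_, hC.mono Subset.rfl fun γ h => ⟨h.1.1.1, h.1.1.2, fun c hc' => ?_⟩,
    fun c hc' => ?_, fun c hc' c' hc'' h => ?_⟩
  · rw [Finset.card_image_of_injOn hinj]
    omega
  · obtain ⟨b, hb, rfl⟩ := Finset.mem_image.1 hc'
    have : f b ∈ cells (r / 2) (range γ) := h.2 ▸ Finset.mem_coe.2 (hf1 b hb)
    exact this
  · obtain ⟨b, hb, rfl⟩ := Finset.mem_image.1 hc'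
    exact ⟨hf2 b hb, SelA.noc hBLK hc hT (fun _ h => h.1.1.1) hC (by linarith) (by linarith)
      (by linarith) fun γ h => h.2 ▸ Finset.mem_coe.2 (hf1 b hb), b,
      (Finset.mem_filter.1 (hB1 hb)).2, hf3 b hb, hf4 b hb⟩
  · obtain ⟨b, hb, rfl⟩ := Finset.mem_image.1 hc'
    obtain ⟨b', hb', rfl⟩ := Finset.mem_image.1 hc''
    exact hsep b hb b' hb' fun e => h (congrArg f e)

end Pool.Agent.P.MP_d66c6d_pr
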