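import Pool.Agent.P.MP_d66c6d_pr.D.Iface
import Pool.Agent.P.MP_d66c6d_pr.A.Iface

/-! Step ZFIV of the carpet project. -/

namespace Pool.Agent.P.MP_d66c6d_pr

open MeasureTheory ProbabilityTheory Set Metric Filter Topology
open scoped ENNReal

namespace ZfivA

theorem cov (hCOV : S_COV) {y y' : ℂ} {r g w : ℝ} (hg : 0 < g) (hgw : g ≤ w) (hr : 100 * w ≤ r)
    (hd : dist y y' ≤ 2 * r) :
    Cov g (40000 * (r / g) * (w / g)) (thickening (4 * w) (segment ℝ y y')) := by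
  have hw : 0 < w := hg.trans_le hgw
  have h1 := (hCOV w 0 ∅ hw).2.2.2.2.2.2 y y'
  have h2 := (hCOV w _ _ hw).2.2.2.1 4 (by norm_num) h1
  have hM : 1 ≤ w / g := (one_le_div hg).2 hgw
  have h3 := (hCOV g _ _ hg).2.2.1 (w / g) hM
    (h2.mono (le_of_eq (div_mul_cancel₀ w hg.ne').symm) le_rfl (thickening_subset_cthickening _ _))
  refine h3.mono le_rfl ?_ Subset.rfl
  have e1 : dist y y' / w ≤ 2 * (r / w) := by
    rw [← mul_div_assoc]; exact div_le_div_of_nonneg_right hd hw.le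
  have e2 : 100 ≤ r / w := (le_div_iff₀ hw).2 hr
  have e3 : r / g = r / w * (w / g) := by field_simp
  have e4 : 26 * (26 * (4 + 1) ^ 2 * (dist y y' / w + 1)) ≤ 40000 * (r / w) := by linarith
  rw [e3]
  calc 26 * (w / g) ^ 2 * (26 * (4 + 1) ^ 2 * (dist y y' / w + 1))
      = 26 * (26 * (4 + 1) ^ 2 * (dist y y' / w + 1)) * (w / g) ^ 2 := by ring
    _ ≤ 40000 * (r / w) * (w / g) ^ 2 := mul_le_mul_of_nonneg_right e4 (sq_nonneg _)
    _ = 40000 * (r / w * (w / g)) * (w / g) := by ring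

theorem thick {y y' z : ℂ} {r w : ℝ} (hy : y ∈ ball z r) (hy' : y' ∈ ball z r) :
    thickening (4 * w) (segment ℝ y y') ⊆ ball z (r + 4 * w) := by
  intro p hp
  obtain ⟨q, hq, hpq⟩ := mem_thickening_iff.1 hp
  have := (convex_ball z r).segment_subset hy hy' hq
  rw [mem_ball] at this ⊢
  linarith [dist_triangle p q z]

theorem far {u x z : ℂ} {a b c : ℝ} (hu : u ∉ ball z a) (hx : dist x z ≤ b) (h : b + c ≤ a) :
    u ∉ ball x c := by
  rw [mem_ball, not_lt] at hu ⊢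
  linarith [dist_triangle u x z]

end ZfivA

theorem p_ZFIV (hDETT : S_DETT) (hZREP : S_ZREP) (hGRID : S_GRID) (hCOV : S_COV) :
    S_ZFIV := by
  classical
  intro T z r g w ε t hT hg hgw hr ht hS hZ ξ hξ
  have hw : 0 < w := hg.trans_le hgw
  have hg2 : 0 < g / 2 := half_pos hg
  obtain ⟨Q, hQ, -⟩ := hGRID.1 (g / 2) (2 * r) z hg2 (by linarith)
  obtain ⟨ξ', hξ', hrep⟩ := hZREP T g ε (Q.image (gp (g / 2))) (fun _ => t) hg (by
    intro x hx
    obtain ⟨c, hc, rfl⟩ := Finset.mem_image.1 hx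
    exact hZ c ((hQ c).1 hc)) ξ hξ
  refine ⟨ξ', hξ', ?_⟩
  rintro y ⟨hy, u, hu, hyu⟩ y' ⟨hy', u', hu', hyu'⟩
  have hth := ZfivA.thick (w := w) hy hy'
  obtain ⟨σ, σ0, σ1, hσ⟩ : ∃ σ : Br, σ 0 = y ∧ σ 1 = y' ∧ range σ = segment ℝ y y' :=
    ⟨(Path.segment y y').toContinuousMap, (Path.segment y y').source, (Path.segment y y').target,
      Path.range_segment y y'⟩
  obtain ⟨γ, γ0, γ1, hγ⟩ := hDETT.1 T (ball z (2 * r)) w ξ' σ hT hw hξ' hS
    (by rw [hσ]; exact hth.trans (ball_subset_ball (by linarith)))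
    (by rw [σ0]; exact ⟨u, ZfivA.far hu (mem_ball.1 hy).le (by linarith), hyu⟩)
    (by rw [σ1]; exact ⟨u', ZfivA.far hu' (mem_ball.1 hy').le (by linarith), hyu'⟩)
  rw [hσ] at hγ
  have hd : dist y y' ≤ 2 * r := by
    linarith [dist_triangle_right y y' z, mem_ball.1 hy, mem_ball.1 hy']
  obtain ⟨hfin, hcard⟩ := hGRID.2.2.2.2.1 (g / 2) g _ (range γ) hg2 (by linarith)
    ((ZfivA.cov hCOV hg hgw hr hd).mono le_rfl le_rfl (hγ.trans inter_subset_right))
  have hB : ∀ x ∈ hfin.toFinset.image (gp (g / 2)), ∃ c, gp (g / 2) c = x ∧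
      dist x z ≤ r + 4 * w + g / 2 := by
    intro x hx
    obtain ⟨c, hc, rfl⟩ := Finset.mem_image.1 hx
    obtain ⟨p, hp, hpc⟩ := hfin.mem_toFinset.1 hc
    have h1 := mem_ball.1 (hth (hγ hp).2)
    have h2 := mem_closedBall.1 hpc
    exact ⟨c, rfl, by linarith [dist_triangle_left (gp (g / 2) c) z p]⟩
  obtain ⟨γ', e0, e1, hγ', hc⟩ := hrep (hfin.toFinset.image (gp (g / 2))) (by
      intro x hx
      obtain ⟨c, rfl, hc⟩ := hB x hx
      exact Finset.mem_image.2 ⟨c, (hQ c).2 (by linarith), rfl⟩) γ (by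
      intro p hp
      refine ⟨(hγ hp).1, ?_⟩
      obtain ⟨c, hc⟩ := hGRID.2.1 (g / 2) p hg2
      rw [dist_comm] at hc
      exact mem_iUnion₂.2 ⟨gp (g / 2) c, Finset.mem_image.2
        ⟨c, hfin.mem_toFinset.2 ⟨p, hp, mem_closedBall.2 hc.le⟩, rfl⟩,
        mem_ball.2 (by linarith)⟩) (by
      intro x hx
      obtain ⟨-, -, hc⟩ := hB x hx
      rw [γ0, σ0]
      exact ⟨u, ZfivA.far hu hc (by linarith), hyu⟩)
  refine ⟨γ', by rw [e0, γ0, σ0], by rw [e1, γ1, σ1], fun p hp => ⟨(hγ' hp).1, ?_⟩,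
    hc.mono le_rfl ?_ Subset.rfl⟩
  · obtain ⟨x, hx, hpx⟩ := mem_iUnion₂.1 (hγ' hp).2
    obtain ⟨-, -, hc⟩ := hB x hx
    rw [mem_ball] at hpx ⊢
    linarith [dist_triangle p x z]
  · have h1 : ((hfin.toFinset.image (gp (g / 2))).card : ℝ) ≤ (cells (g / 2) (range γ)).ncard := by
      rw [ncard_eq_toFinset_card _ hfin]
      exact_mod_cast Finset.card_image_le
    have h2 : 0 ≤ r / g * (w / g) := by
      have : 0 ≤ r := by linarith
      positivity
    rw [Finset.sum_const, nsmul_eq_mul, ← mul_assoc]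
    refine mul_le_mul_of_nonneg_right ?_ ht
    linarith

end Pool.Agent.P.MP_d66c6d_pr
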