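import Pool.Agent.P.MP_d66c6d_pr.D.Iface

/-! Step ZGAI of the carpet project. -/

namespace Pool.Agent.P.MP_d66c6d_pr

open MeasureTheory ProbabilityTheory Set Metric Filter Topology
open scoped ENNReal

namespace ZgaiA

/-- Replacement of the part of a path between its first and last visits of a closed set. -/
theorem cut (γ : Br) {D : Set ℂ} (hD : IsClosed D) (hne : (range γ ∩ D).Nonempty) :
    ∃ y ∈ range γ ∩ D, ∃ y' ∈ range γ ∩ D, ∀ l : Br, l 0 = y → l 1 = y' →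
      ∃ γ' : Br, γ' 0 = γ 0 ∧ γ' 1 = γ 1 ∧ range γ' ⊆ (range γ \ D) ∪ range l := by
  have hc : IsCompact (γ ⁻¹' D) := (hD.preimage γ.continuous).isCompact
  have hn : (γ ⁻¹' D).Nonempty := by
    obtain ⟨_, ⟨s, rfl⟩, hs⟩ := hne
    exact ⟨s, hs⟩
  obtain ⟨s, hs, hs'⟩ := hc.exists_isLeast hn
  obtain ⟨t, ht, ht'⟩ := hc.exists_isGreatest hn
  refine ⟨γ s, ⟨⟨s, rfl⟩, hs⟩, γ t, ⟨⟨t, rfl⟩, ht⟩, fun l h0 h1 => ?_⟩
  obtain ⟨a, a0, a1, ar⟩ := exists_br_piece γ (show (0 : unitInterval) ≤ s from s.2.1)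
  obtain ⟨b, b0, b1, br⟩ := exists_br_piece γ (show t ≤ (1 : unitInterval) from t.2.2)
  obtain ⟨c, c0, c1, cr⟩ := exists_br_trans (α := a) (β := l) (by rw [a1, h0])
  obtain ⟨d, d0, d1, dr⟩ := exists_br_trans (α := c) (β := b) (by rw [c1, h1, b0])
  refine ⟨d, by rw [d0, c0, a0], by rw [d1, b1], ?_⟩
  rw [dr, cr, ar, br]
  rintro x ((⟨w, hw, rfl⟩ | hx) | ⟨w, hw, rfl⟩)
  · by_cases hwD : γ w ∈ D
    · have : w = s := le_antisymm hw.2 (hs' hwD)
      exact Or.inr ⟨0, by rw [h0, this]⟩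
    · exact Or.inl ⟨⟨w, rfl⟩, hwD⟩
  · exact Or.inr hx
  · by_cases hwD : γ w ∈ D
    · have : w = t := le_antisymm (ht' hwD) hw.1
      exact Or.inr ⟨1, by rw [h1, this]⟩
    · exact Or.inl ⟨⟨w, rfl⟩, hwD⟩

/-- A crossing of the unit annulus leaves every small disc. -/
theorem leave {g : Br} (hg : CrsG 0 1 g) (z : ℂ) {s : ℝ} (hs : s ≤ 1 / 2) :
    ∃ w ∈ range g, w ∉ ball z s := by
  by_contra hn
  simp only [not_exists, not_and, not_not] at hn
  have h0 := hn _ ⟨0, rfl⟩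
  have h1 := hn _ ⟨1, rfl⟩
  obtain ⟨h2, h3⟩ := hg
  simp only [mem_ball, mem_closedBall, not_lt] at h0 h1 h2 h3
  have h4 := dist_triangle (g 1) (g 0) 0
  have h5 := dist_triangle_right (g 1) (g 0) z
  linarith

theorem joined {g : Br} {G : Set ℂ} (hG : range g ⊆ G) {y w : ℂ} (hy : y ∈ range g)
    (hw : w ∈ range g) : JoinedIn G y w := by
  have key : ∀ s t : unitInterval, s ≤ t → JoinedIn G (g s) (g t) := fun s t h => by
    obtain ⟨a, a0, a1, ar⟩ := exists_br_piece g h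
    exact joinedIn_iff_br.2 ⟨a, a0, a1, ar ▸ (image_subset_range _ _).trans hG⟩
  obtain ⟨s, rfl⟩ := hy
  obtain ⟨t, rfl⟩ := hw
  rcases le_total s t with h | h
  · exact key s t h
  · exact (key t s h).symm

/-- The induction on the discs. -/
theorem ind {G : Set ℂ} {r ε v : ℝ} {I : Finset ℂ} {g : Br} (hr : 0 < r) (hv : 0 ≤ v)
    (hI : ∀ z ∈ I, ∀ z' ∈ I, z ≠ z' → 5 * r ≤ dist z z')
    (hl : ∀ z ∈ I, ∀ y ∈ range g ∩ closedBall z (8 / 5 * r),
      ∀ y' ∈ range g ∩ closedBall z (8 / 5 * r), ∃ l : Br, l 0 = y ∧ l 1 = y' ∧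
        range l ⊆ G ∩ ball z (35 / 16 * r) ∧ Cov ε v (range l))
    (J : Finset ℂ) (hJ : J ⊆ I) :
    ∃ (γ : Br) (Lk : Set ℂ), γ 0 = g 0 ∧ γ 1 = g 1 ∧
      range γ ⊆ (range g \ ⋃ z ∈ J, closedBall z (8 / 5 * r)) ∪ Lk ∧
      Lk ⊆ G ∩ ⋃ z ∈ J, ball z (35 / 16 * r) ∧ Cov ε (J.card * v) Lk := by
  classical
  induction J using Finset.induction_on with
  | empty => exact ⟨g, ∅, rfl, rfl, by simp, by simp, by simpa using cov_empty ε⟩
  | insert z J hz ih =>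
    obtain ⟨γ, Lk, h0, h1, h2, h3, h4⟩ := ih ((Finset.subset_insert z J).trans hJ)
    have hzI : z ∈ I := hJ (Finset.mem_insert_self z J)
    have hc : ((insert z J).card : ℝ) * v = J.card * v + v := by
      rw [Finset.card_insert_of_notMem hz]
      push_cast
      ring
    rw [hc, Finset.set_biUnion_insert, Finset.set_biUnion_insert]
    have hin : range γ ∩ closedBall z (8 / 5 * r) ⊆ range g ∩ closedBall z (8 / 5 * r) := by
      rintro y ⟨hy, hy'⟩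
      rcases h2 hy with h | h
      · exact ⟨h.1, hy'⟩
      · exfalso
        obtain ⟨z', hz', h5⟩ := mem_iUnion₂.1 (h3 h).2
        have h6 := hI z hzI z' (hJ (Finset.mem_insert_of_mem hz')) (fun e => hz (e ▸ hz'))
        have h7 := dist_triangle_left z z' y
        rw [mem_ball] at h5
        rw [mem_closedBall] at hy'
        linarith
    by_cases hne : (range γ ∩ closedBall z (8 / 5 * r)).Nonempty
    · obtain ⟨y, hy, y', hy', h5⟩ := cut γ isClosed_closedBall hne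
      obtain ⟨l, l0, l1, l2, l3⟩ := hl z hzI y (hin hy) y' (hin hy')
      obtain ⟨γ', e0, e1, e2⟩ := h5 l l0 l1
      refine ⟨γ', Lk ∪ range l, e0.trans h0, e1.trans h1, fun x hx => ?_, ?_, h4.union l3⟩
      · rcases e2 hx with ⟨h6, h7⟩ | h6
        · rcases h2 h6 with h8 | h8
          · exact Or.inl ⟨h8.1, fun h9 => h9.elim h7 h8.2⟩
          · exact Or.inr (Or.inl h8)
        · exact Or.inr (Or.inr h6)
      · rintro x (hx | hx)
        · exact ⟨(h3 hx).1, Or.inr (h3 hx).2⟩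
        · exact ⟨(l2 hx).1, Or.inl (l2 hx).2⟩
    · refine ⟨γ, Lk, h0, h1, fun x hx => ?_, fun x hx => ⟨(h3 hx).1, Or.inr (h3 hx).2⟩,
        h4.mono le_rfl (by linarith) Subset.rfl⟩
      rcases h2 hx with h8 | h8
      · exact Or.inl ⟨h8.1, fun h9 => h9.elim (fun h7 => hne ⟨x, hx, h7⟩) h8.2⟩
      · exact Or.inr h8

/-- The count of the discs that remain. -/
theorem count {A : Set ℂ} {r ε n u : ℝ} {I : Finset ℂ} (hε : 0 < ε) (hr : 40 * ε ≤ r)
    (hI : ∀ z ∈ I, ∀ z' ∈ I, z ≠ z' → 5 * r ≤ dist z z') (hA : Cov ε n A)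
    (hu : ∀ z ∈ I, ¬ Cov ε u (A ∩ closedBall z (31 / 20 * r))) :
    Cov ε (n - I.card * u) (A \ ⋃ z ∈ I, closedBall z (8 / 5 * r)) := by
  classical
  obtain ⟨Z, hZ, hAZ⟩ := hA
  let Y : ℂ → Finset ℂ := fun z => Z.filter fun ζ => ball ζ ε ⊆ closedBall z (8 / 5 * r)
  have hY : ∀ z ∈ I, u ≤ (Y z).card := by
    intro z hz
    by_contra hlt
    refine hu z hz ⟨Y z, (not_le.1 hlt).le, ?_⟩
    rintro x ⟨hx, hx'⟩
    obtain ⟨ζ, hζ, h1⟩ := mem_iUnion₂.1 (hAZ hx)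
    refine mem_iUnion₂.2 ⟨ζ, Finset.mem_filter.2 ⟨hζ, fun w hw => ?_⟩, h1⟩
    have h2 := dist_triangle4 w ζ x z
    rw [mem_ball] at hw h1
    rw [mem_closedBall] at hx' ⊢
    rw [dist_comm ζ x] at h2
    linarith
  have hd : (I : Set ℂ).PairwiseDisjoint Y := by
    intro z hz z' hz' hne
    refine Finset.disjoint_left.2 fun ζ h1 h2 => ?_
    have h3 := (Finset.mem_filter.1 h1).2 (mem_ball_self hε)
    have h4 := (Finset.mem_filter.1 h2).2 (mem_ball_self hε)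
    have h5 := hI z hz z' hz' hne
    have h6 := dist_triangle_left z z' ζ
    rw [mem_closedBall] at h3 h4
    linarith
  have hsub : I.biUnion Y ⊆ Z := Finset.biUnion_subset.2 fun z _ => Finset.filter_subset _ _
  refine ⟨Z \ I.biUnion Y, ?_, ?_⟩
  · have h1 : ((Z \ I.biUnion Y).card : ℝ) + (I.biUnion Y).card = Z.card := by
      exact_mod_cast Finset.card_sdiff_add_card_eq_card hsub
    have h2 : ((I.biUnion Y).card : ℝ) = ∑ z ∈ I, ((Y z).card : ℝ) := by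
      rw [Finset.card_biUnion hd]
      push_cast
      rfl
    have h3 : (I.card : ℝ) * u ≤ ∑ z ∈ I, ((Y z).card : ℝ) := by
      rw [← nsmul_eq_mul]
      exact Finset.card_nsmul_le_sum I _ u hY
    linarith
  · rintro x ⟨hx, hx'⟩
    obtain ⟨ζ, hζ, h1⟩ := mem_iUnion₂.1 (hAZ hx)
    refine mem_iUnion₂.2 ⟨ζ, Finset.mem_sdiff.2 ⟨hζ, fun h2 => hx' ?_⟩, h1⟩
    obtain ⟨z, hz, h3⟩ := Finset.mem_biUnion.1 h2
    exact mem_iUnion₂.2 ⟨z, hz, (Finset.mem_filter.1 h3).2 h1⟩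

/-- A positive lower bound of finitely many positive numbers. -/
theorem lower (I : Finset ℂ) (f : ℂ → ℝ) (hf : ∀ z ∈ I, 0 < f z) {ξ : ℝ} (hξ : 0 < ξ) :
    ∃ η > (0 : ℝ), η ≤ ξ ∧ ∀ z ∈ I, η ≤ f z := by
  classical
  induction I using Finset.induction_on with
  | empty => exact ⟨ξ, hξ, le_rfl, by simp⟩
  | insert z J _ ih =>
    obtain ⟨η, h1, h2, h3⟩ := ih fun w hw => hf w (Finset.mem_insert_of_mem hw)
    refine ⟨min η (f z), lt_min h1 (hf z (Finset.mem_insert_self z J)),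
      (min_le_left _ _).trans h2, fun w hw => ?_⟩
    rcases Finset.mem_insert.1 hw with rfl | hw
    · exact min_le_right _ _
    · exact (min_le_left _ _).trans (h3 w hw)

end ZgaiA

open ZgaiA in
theorem p_ZGAI (hDMON : S_DMON) :
    S_ZGAI := by
  intro T₀ T₁ r ε n u v I hT hε hεr hr hI hV hv hz ξ hξ
  have hr0 : 0 < r := by linarith
  have h1 : ∀ z ∈ I, ∃ η > (0 : ℝ), ∀ γ : Br, CrsG z r γ → range γ ⊆ Free η T₁ →
      ¬ Cov ε u (range γ) := fun z h => by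
    have := (hz z h).1
    simp only [Nle, not_forall, not_exists, not_and, exists_prop] at this
    exact this
  have h2 := fun z h => (hz z h).2 ξ hξ
  choose! f hf hf' using h1
  choose! k hk hk' using h2
  obtain ⟨η₁, p1, p2, p3⟩ := lower I f hf hξ
  obtain ⟨η, q1, q2, q3⟩ := lower I k hk p1
  obtain ⟨g, ⟨⟨hg, -⟩, hgc, hgI⟩, hgF⟩ := hV η q1
  have hc := count hε hεr hI hgc (u := u) fun z h hcov => by
    obtain ⟨w, hw, hw'⟩ := leave hg z (s := 31 / 20 * r) (by linarith)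
    obtain ⟨γ', e1, e2⟩ := hDMON.2.1 g z r hr0 (hgI z h) fun hs => hw' (hs hw)
    exact hf' z h γ' e1 ((e2.trans inter_subset_left).trans
      (hgF.trans (Free_mono (q2.trans (p3 z h)) Subset.rfl))) (hcov.mono le_rfl le_rfl e2)
  have harm : ∀ z ∈ I, ∀ y ∈ range g ∩ closedBall z (8 / 5 * r),
      y ∈ Arm (Free (k z) T₀) (ball z (31 / 20 * (7 / 4 * r)))ᶜ z (7 / 4 * r) := by
    rintro z h y ⟨hy, hy'⟩
    obtain ⟨w, hw, hw'⟩ := leave hg z (s := 31 / 20 * (7 / 4 * r)) (by linarith)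
    exact ⟨closedBall_subset_ball (by linarith) hy', w, hw',
      joined (hgF.trans (Free_mono (q3 z h) hT)) hy hw⟩
  obtain ⟨γ, Lk, e0, e1, e2, e3, e4⟩ := ind (G := Free ξ T₀) (ε := ε) (g := g) hr0 hv hI
    (fun z h y hy y' hy' => by
      obtain ⟨l, l0, l1, l2, l3⟩ := hk' z h y (harm z h y hy) y' (harm z h y' hy')
      refine ⟨l, l0, l1, ?_, l3⟩
      rwa [show 5 / 4 * (7 / 4 * r) = 35 / 16 * r by ring] at l2) I (Finset.Subset.refl I)
  refine ⟨γ, ⟨e0 ▸ hg.1, e1 ▸ hg.2⟩, fun x hx => ?_, (hc.union e4).mono le_rfl (le_of_eq ?_) e2⟩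
  · rcases e2 hx with h | h
    · exact Free_mono (q2.trans p2) hT (hgF h.1)
    · exact (e3 h).1
  · ring

end Pool.Agent.P.MP_d66c6d_pr
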