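import Pool.Agent.P.MP_d66c6d_pr.D.Iface

/-! Step ZONE of the carpet project. -/

namespace Pool.Agent.P.MP_d66c6d_pr

open MeasureTheory ProbabilityTheory Set Metric Filter Topology
open scoped ENNReal

namespace ZoneA

lemma zat_of {ι : Type} [Fintype ι] {G G' A : Set ℂ} {z : ℂ} {r ε t : ℝ} (x : ι → ℂ) (ρ : ι → ℝ)
    (d : ι → ℕ) (h1 : ∑ i, ((d i : ℝ) + 1) ≤ t)
    (h2 : ∀ i, 0 ≤ ρ i ∧ ρ i < ε ∧ closedBall (x i) (ρ i) ⊆ G ∩ ball z (5 / 4 * r))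
    (h3 : Arm G' A z r ⊆
      ⋃ i, closure (Reach (G ∩ ball z (5 / 4 * r)) ε (d i) (closedBall (x i) (ρ i)))) :
    Zat G G' A z r ε t := by
  let e := (Fintype.equivFin ι).symm
  refine ⟨Fintype.card ι, x ∘ e, ρ ∘ e, d ∘ e, ?_, fun i => h2 (e i), fun y hy => ?_⟩
  · exact (e.sum_comp fun i => (d i : ℝ) + 1).le.trans h1
  · obtain ⟨i, hi⟩ := mem_iUnion.1 (h3 hy)
    refine mem_iUnion.2 ⟨e.symm i, ?_⟩
    simpa only [Function.comp, Equiv.apply_symm_apply] using hi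

lemma reach_mono {G G' D : Set ℂ} {ε d : ℝ} (h : G ⊆ G') : Reach G ε d D ⊆ Reach G' ε d D :=
  fun _ ⟨γ, h1, h2, h3, h4⟩ => ⟨γ, h1, h2, h3.trans h, h4⟩

end ZoneA

theorem p_ZONE (hBLK : S_BLK) :
    S_ZONE := by
  classical
  intro T L r ε B t hT hL hr hLr hcov hB ξ hξ
  have hLr0 : 10 * r ≤ L * r := mul_le_mul_of_nonneg_right hL hr.le
  have hloc : ∀ z : B, ∃ ξ' > (0 : ℝ), ∃ (k : ℕ) (x : Fin k → ℂ) (ρ : Fin k → ℝ) (d : Fin k → ℕ),
      ∑ i, ((d i : ℝ) + 1) ≤ t z ∧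
      (∀ i, 0 ≤ ρ i ∧ ρ i < ε ∧ closedBall (x i) (ρ i) ⊆ Free ξ T ∩ ball (z : ℂ) (5 / 4 * r)) ∧
      (NoC T z (L * r) → Arm (Free ξ' T) (ball (z : ℂ) (31 / 20 * r))ᶜ z r ⊆
        ⋃ i, closure (Reach (Free ξ T ∩ ball (z : ℂ) (5 / 4 * r)) ε (d i)
          (closedBall (x i) (ρ i)))) := by
    intro z
    obtain ⟨-, ht, hz⟩ := hB z z.2
    by_cases hN : NoC T z (L * r)
    · obtain ⟨ξ', hξ', k, x, ρ, d, h1, h2, h3⟩ := hz hN ξ hξ
      exact ⟨ξ', hξ', k, x, ρ, d, h1, h2, fun _ => h3⟩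
    · exact ⟨1, one_pos, 0, Fin.elim0, Fin.elim0, Fin.elim0, by simpa using ht,
        fun i => i.elim0, fun h => absurd h hN⟩
  choose ξ' hξ' k x ρ d h1 h2 h3 using hloc
  obtain ⟨η, hη, hηL, hηz⟩ : ∃ η > (0 : ℝ), η ≤ L * r ∧ ∀ z : B, η ≤ ξ' z := by
    have : ∀ᶠ η in 𝓝[>] (0 : ℝ), 0 < η ∧ η ≤ L * r ∧ ∀ z : B, η ≤ ξ' z := by
      refine Filter.Eventually.and self_mem_nhdsWithin (Filter.Eventually.and ?_ ?_)
      · exact nhdsWithin_le_nhds (eventually_le_nhds (by linarith))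
      · exact Filter.eventually_all.2 fun z => nhdsWithin_le_nhds (eventually_le_nhds (hξ' z))
    obtain ⟨η, h⟩ := this.exists
    exact ⟨η, h.1, h.2⟩
  have hball : ∀ z : B, ball (z : ℂ) (5 / 4 * r) ⊆ ball (0 : ℂ) (5 / 4 * 1) := fun z => by
    refine ball_subset_ball' ?_
    have := (hB z z.2).1
    rw [dist_zero_right]
    linarith
  refine ⟨η, hη, ZoneA.zat_of (ι := Σ z : B, Fin (k z)) (fun p => x p.1 p.2) (fun p => ρ p.1 p.2)
    (fun p => d p.1 p.2) ?_ (fun p => ?_) fun y hy => ?_⟩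
  · rw [Fintype.sum_sigma, ← Finset.sum_coe_sort B]
    exact Finset.sum_le_sum fun z _ => h1 z
  · obtain ⟨a, b, c⟩ := h2 p.1 p.2
    exact ⟨a, b, c.trans (inter_subset_inter_right _ (hball p.1))⟩
  · obtain ⟨hy1, w, hw, hj⟩ := hy
    obtain ⟨z, hz, hyz⟩ := hcov y hy1
    have hz1 := (hB z hz).1
    have hw1 : 31 / 20 ≤ ‖w‖ := by
      simpa only [mem_compl_iff, mem_ball, dist_zero_right, not_lt, mul_one] using hw
    have hwz : 1 / 2 ≤ dist w z := by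
      have := norm_sub_norm_le w z
      rw [dist_eq_norm]
      linarith
    have hN : NoC T z (L * r) := by
      refine hBLK T z y w (L * r) η hT (by linarith) hηL ?_ ?_ hj
      · exact closedBall_subset_closedBall (by linarith) (ball_subset_closedBall hyz)
      · rw [mem_closedBall, not_le]
        linarith
    have hy2 : y ∈ Arm (Free (ξ' ⟨z, hz⟩) T) (ball z (31 / 20 * r))ᶜ z r := by
      refine ⟨hyz, w, ?_, hj.mono (Free_mono (hηz _) Subset.rfl)⟩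
      rw [mem_compl_iff, mem_ball, not_lt]
      linarith
    obtain ⟨i, hi⟩ := mem_iUnion.1 (h3 ⟨z, hz⟩ hN hy2)
    exact mem_iUnion.2 ⟨⟨⟨z, hz⟩, i⟩, closure_mono
      (ZoneA.reach_mono (inter_subset_inter_right _ (hball ⟨z, hz⟩))) hi⟩

end Pool.Agent.P.MP_d66c6d_pr
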