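import Pool.Agent.P.MP_d66c6d_pr.D.Iface

/-! Step ZREP of the carpet project. -/

namespace Pool.Agent.P.MP_d66c6d_pr

open MeasureTheory ProbabilityTheory Set Metric Filter Topology
open scoped ENNReal

namespace ZrepA

/-- A path from `u` to `v` inside `G` that is covered by `t` discs. -/
def Lnk (G : Set ℂ) (ε t : ℝ) (u v : ℂ) : Prop :=
  ∃ γ : Br, γ 0 = u ∧ γ 1 = v ∧ range γ ⊆ G ∧ Cov ε t (range γ)

variable {G G' : Set ℂ} {ε t t' : ℝ} {u v w : ℂ}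

theorem Lnk.trans (h : Lnk G ε t u v) (h' : Lnk G ε t' v w) : Lnk G ε (t + t') u w := by
  obtain ⟨α, a0, a1, a2, a3⟩ := h
  obtain ⟨β, b0, b1, b2, b3⟩ := h'
  obtain ⟨γ, c0, c1, c2⟩ := exists_br_trans (a1.trans b0.symm)
  exact ⟨γ, c0.trans a0, c1.trans b1, c2 ▸ union_subset a2 b2, c2 ▸ a3.union b3⟩

theorem Lnk.symm (h : Lnk G ε t u v) : Lnk G ε t v u := by
  obtain ⟨α, a0, a1, a2, a3⟩ := h
  obtain ⟨γ, c0, c1, c2⟩ := exists_br_symm α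
  exact ⟨γ, c0.trans a1, c1.trans a0, c2 ▸ a2, c2 ▸ a3⟩

theorem Lnk.mono (h : Lnk G ε t u v) (hG : G ⊆ G') (ht : t ≤ t') : Lnk G' ε t' u v :=
  let ⟨α, a0, a1, a2, a3⟩ := h
  ⟨α, a0, a1, a2.trans hG, a3.mono le_rfl ht subset_rfl⟩

theorem lnk_convex {C : Set ℂ} (hC : Convex ℝ C) (hG : C ⊆ G) {c : ℂ} (hc : C ⊆ ball c ε)
    (hu : u ∈ C) (hv : v ∈ C) : Lnk G ε 1 u v := by
  obtain ⟨γ, h0, h1, h2⟩ := joinedIn_iff_br.1 ((hC.isPathConnected ⟨u, hu⟩).joinedIn u hu v hv)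
  exact ⟨γ, h0, h1, h2.trans hG, (cov_ball c ε).mono le_rfl le_rfl (h2.trans hc)⟩

theorem half {D : Set ℂ} {d : ℝ} (hε : 0 < ε) (hG : IsOpen G) (hG' : G' ⊆ G) (hu : u ∈ G)
    (h : u ∈ closure (Reach G' ε d D)) : ∃ w ∈ D, Lnk G ε (1 + d) u w := by
  obtain ⟨η, hη, hb⟩ := Metric.isOpen_iff.1 hG u hu
  obtain ⟨y, ⟨γ, h0, h1, h2, h3⟩, hy⟩ := Metric.mem_closure_iff.1 h _ (lt_min hη hε)
  refine ⟨γ 1, h1, Lnk.trans (v := y) ?_ ⟨γ, h0, rfl, h2.trans hG', h3⟩⟩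
  exact lnk_convex (convex_ball u (min η ε)) ((ball_subset_ball (min_le_left _ _)).trans hb)
    (ball_subset_ball (min_le_right _ _)) (mem_ball_self (lt_min hη hε)) (mem_ball'.2 hy)

theorem both {x : ℂ} {ρ d : ℝ} (h0 : 0 ≤ ρ) (hρ : ρ < ε) (hd : 0 ≤ d) (hG : IsOpen G)
    (hG' : G' ⊆ G) (hD : closedBall x ρ ⊆ G') (hu : u ∈ G) (hv : v ∈ G)
    (h : u ∈ closure (Reach G' ε d (closedBall x ρ)))
    (h' : v ∈ closure (Reach G' ε d (closedBall x ρ))) : Lnk G ε (3 * (d + 1)) u v := by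
  obtain ⟨a, ha, h1⟩ := half (h0.trans_lt hρ) hG hG' hu h
  obtain ⟨b, hb, h2⟩ := half (h0.trans_lt hρ) hG hG' hv h'
  exact ((h1.trans (lnk_convex (convex_closedBall x ρ) (hD.trans hG')
    (closedBall_subset_ball hρ) ha hb)).trans h2.symm).mono subset_rfl (by linarith)

theorem shortcut {ι : Type} (Q : ι → Set ℂ) (hQ : ∀ i, IsClosed (Q i)) (w : ι → ℝ)
    (hw : ∀ i, 0 ≤ w i) (γ : Br) (s : Finset ι) :
    (∀ i ∈ s, ∀ a b, γ a ∈ Q i → γ b ∈ Q i → Lnk G ε (w i) (γ a) (γ b)) →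
    ∀ a, (∀ b, a ≤ b → ∃ i ∈ s, γ b ∈ Q i) → Lnk G ε (∑ i ∈ s, w i) (γ a) (γ 1) := by
  classical
  induction s using Finset.strongInduction with
  | H s ih =>
    intro hl a hc
    obtain ⟨i, hi, hai⟩ := hc a le_rfl
    obtain ⟨c, hc1, hc2⟩ := ((hQ i).preimage γ.continuous).isCompact.exists_isGreatest ⟨a, hai⟩
    have h1 := hl i hi a c hai hc1
    rcases eq_or_lt_of_le (unitInterval.le_one' (t := c)) with e | e
    · rw [e] at h1
      exact h1.mono subset_rfl (Finset.single_le_sum (fun j _ => hw j) hi)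
    · have hcl : IsClosed (⋃ j ∈ s.erase i, γ ⁻¹' Q j) :=
        isClosed_biUnion_finset fun j _ => (hQ j).preimage γ.continuous
      have h2 : Ici c ⊆ ⋃ j ∈ s.erase i, γ ⁻¹' Q j := by
        rw [← closure_Ioi' (a := c) ⟨1, e⟩]
        refine closure_minimal (fun b hb => ?_) hcl
        obtain ⟨j, hj, hbj⟩ := hc b ((hc2 hai).trans (le_of_lt hb))
        refine mem_iUnion₂.2 ⟨j, Finset.mem_erase.2 ⟨?_, hj⟩, hbj⟩
        rintro rfl
        exact not_le.2 hb (hc2 hbj)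
      have h3 := ih _ (Finset.erase_ssubset hi)
        (fun j hj => hl j (Finset.mem_of_mem_erase hj)) c fun b hb => by
          obtain ⟨j, hj, hbj⟩ := mem_iUnion₂.1 (h2 hb)
          exact ⟨j, hj, hbj⟩
      rw [← Finset.add_sum_erase s w hi]
      exact h1.trans h3

end ZrepA

theorem p_ZREP :
    S_ZREP := by
  intro T r ε B t hr hZ ξ hξ
  have h1 : ∀ z, ∃ η > (0 : ℝ), ∃ (k : ℕ) (x : Fin k → ℂ) (ρ : Fin k → ℝ) (d : Fin k → ℕ),
      z ∈ B → ∑ i, ((d i : ℝ) + 1) ≤ t z ∧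
      (∀ i, 0 ≤ ρ i ∧ ρ i < ε ∧ closedBall (x i) (ρ i) ⊆ Free ξ T ∩ ball z (5 / 4 * r)) ∧
      Arm (Free η T) (ball z (31 / 20 * r))ᶜ z r ⊆ ⋃ i, closure
        (Reach (Free ξ T ∩ ball z (5 / 4 * r)) ε (d i) (closedBall (x i) (ρ i))) := fun z => by
    by_cases hz : z ∈ B
    · obtain ⟨η, hη, k, x, ρ, d, h⟩ := hZ z hz ξ hξ
      exact ⟨η, hη, k, x, ρ, d, fun _ => h⟩
    · exact ⟨1, one_pos, 0, Fin.elim0, Fin.elim0, Fin.elim0, fun h => absurd h hz⟩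
  choose η hη k x ρ d hd using h1
  have h2 : ∀ᶠ ξ' in 𝓝[>] (0 : ℝ), ∀ z ∈ B, ξ' ≤ η z :=
    (eventually_all_finset B).2 fun z _ => nhdsWithin_le_nhds (Iic_mem_nhds (hη z))
  obtain ⟨ξ', ⟨h3, h4⟩, h5⟩ :=
    ((h2.and (nhdsWithin_le_nhds (Iic_mem_nhds hξ))).and self_mem_nhdsWithin).exists
  refine ⟨ξ', h5, fun B' hB γ hγ harm => ?_⟩
  have hF : ∀ a, γ a ∈ Free ξ' T := fun a => (hγ (mem_range_self a)).1
  have key := ZrepA.shortcut (G := Free ξ T ∩ ⋃ z ∈ B', ball z (2 * r)) (ε := ε)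
    (fun p : Σ z : ℂ, Fin (k z) => closure (Reach (Free ξ T ∩ ball p.1 (5 / 4 * r)) ε (d p.1 p.2)
      (closedBall (x p.1 p.2) (ρ p.1 p.2)))) (fun _ => isClosed_closure)
    (fun p => 3 * ((d p.1 p.2 : ℝ) + 1)) (fun _ => by positivity) γ
    (B'.sigma fun _ => Finset.univ) ?_ 0 ?_
  · refine key.mono subset_rfl ?_
    rw [Finset.sum_sigma, Finset.mul_sum]
    refine Finset.sum_le_sum fun z hz => ?_
    rw [← Finset.mul_sum]
    exact mul_le_mul_of_nonneg_left (hd z (hB hz)).1 (by norm_num)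
  · rintro ⟨z, i⟩ hp a b ha hb
    have hz : z ∈ B' := (Finset.mem_sigma.1 hp).1
    obtain ⟨e1, e2, e3⟩ := (hd z (hB hz)).2.1 i
    have hin : ∀ c, γ c ∈ closure (Reach (Free ξ T ∩ ball z (5 / 4 * r)) ε (d z i)
        (closedBall (x z i) (ρ z i))) → γ c ∈ Free ξ T ∩ ball z (2 * r) := fun c hc => by
      refine ⟨Free_mono h4 subset_rfl (hF c), closedBall_subset_ball
        (show 5 / 4 * r < 2 * r by linarith) (closure_minimal ?_ isClosed_closedBall hc)⟩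
      rintro y ⟨β, b0, -, b2, -⟩
      exact ball_subset_closedBall (b0 ▸ (b2 (mem_range_self 0)).2)
    exact (ZrepA.both e1 e2 (Nat.cast_nonneg _) ((isOpen_Free ξ T).inter isOpen_ball)
      (inter_subset_inter_right _ (ball_subset_ball (by linarith))) e3 (hin a ha) (hin b hb)
      ha hb).mono (inter_subset_inter_right _ (subset_biUnion_of_mem (u := fun z => ball z (2 * r))
        hz)) le_rfl
  · intro b _
    obtain ⟨z, hz, hbz⟩ := mem_iUnion₂.1 (hγ (mem_range_self b)).2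
    obtain ⟨u, hu, hj⟩ := harm z hz
    have hj' : JoinedIn (Free ξ' T) (γ b) (γ 0) := by
      obtain ⟨β, b0, b1, b2⟩ := exists_br_piece γ (unitInterval.nonneg' (t := b))
      exact (joinedIn_iff_br.2 ⟨β, b0, b1, b2 ▸ image_subset_iff.2 fun c _ => hF c⟩).symm
    obtain ⟨i, hi⟩ := mem_iUnion.1 ((hd z (hB hz)).2.2
      ⟨hbz, u, hu, (hj'.trans hj).mono (Free_mono (h3 z (hB hz)) subset_rfl)⟩)
    exact ⟨⟨z, i⟩, Finset.mem_sigma.2 ⟨hz, Finset.mem_univ _⟩, hi⟩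

end Pool.Agent.P.MP_d66c6d_pr
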