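import Pool.Agent.P.MP_d66c6d_pr.D.Iface
import Pool.Agent.P.MP_d66c6d_pr.A.Iface

/-! Step ZTHR of the carpet project. -/

namespace Pool.Agent.P.MP_d66c6d_pr

open MeasureTheory ProbabilityTheory Set Metric Filter Topology
open scoped ENNReal

theorem p_ZTHR (hCOV : S_COV) :
    S_ZTHR := by
  intro T ε t h0 h1 h ξ hξ
  obtain ⟨ξ', hξ', k, x, ρ, d, hs, hb, hA⟩ := h ξ hξ
  have hc : Cov ε ⌈41 / ε ^ 2⌉₊ (ball (0 : ℂ) (5 / 4 * 1)) := by
    have := (hCOV ε 1 (ball 0 (5 / 4 / ε * ε)) h0).2.2.1 (5 / 4 / ε)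
      ((le_div_iff₀ h0).2 (by linarith)) (cov_ball _ _)
    rw [div_mul_cancel₀ _ h0.ne'] at this
    refine this.mono le_rfl (le_trans ?_ (Nat.le_ceil _)) (by rw [mul_one])
    rw [div_pow, mul_one, ← mul_div_assoc]
    gcongr
    norm_num
  refine ⟨ξ', hξ', k, x, fun _ => 0, fun _ => ⌈41 / ε ^ 2⌉₊, ?_, fun i => ⟨le_rfl, h0,
    (closedBall_subset_closedBall (hb i).1).trans (hb i).2.2⟩,
    hA.trans (iUnion_mono fun i => closure_mono ?_)⟩
  · refine le_trans ?_ (mul_le_mul_of_nonneg_left hs (by positivity))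
    rw [Finset.mul_sum]
    refine Finset.sum_le_sum fun i _ => le_trans ?_
      (le_mul_of_one_le_right (by positivity) (le_add_of_nonneg_left (Nat.cast_nonneg _)))
    have a := Nat.ceil_lt_add_one (show 0 ≤ 41 / ε ^ 2 by positivity)
    have b : 1 ≤ 1 / ε ^ 2 := one_le_one_div (by positivity) (pow_le_one₀ h0.le h1)
    beta_reduce
    linarith [div_eq_mul_one_div 41 (ε ^ 2), div_eq_mul_one_div 200 (ε ^ 2)]
  · rintro _ ⟨γ, rfl, g1, g2, -⟩
    obtain ⟨β, b0, b1, b2⟩ := joinedIn_iff_br.1 ((JoinedIn.of_segment_subset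
      ((convex_closedBall _ _).segment_subset g1 (mem_closedBall_self (hb i).1))).mono (hb i).2.2)
    obtain ⟨γ', c0, c1, c2⟩ := exists_br_trans b0.symm
    have h3 := c2.subset.trans (union_subset g2 b2)
    exact ⟨γ', c0, by rw [c1, b1]; exact mem_closedBall_self le_rfl, h3,
      hc.mono le_rfl le_rfl (h3.trans inter_subset_right)⟩

end Pool.Agent.P.MP_d66c6d_pr
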