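import Pool.Agent.P.MP_d66c6d_pr.D.Iface

/-! Step ZTWO of the carpet project. -/

namespace Pool.Agent.P.MP_d66c6d_pr

open MeasureTheory ProbabilityTheory Set Metric Filter Topology
open scoped ENNReal

namespace ZtwoA

theorem exists_lb (B : Finset ℂ) (f : ℂ → ℝ) (h : ∀ z ∈ B, 0 < f z) {a : ℝ} (ha : 0 < a) :
    ∃ e > (0 : ℝ), e ≤ a ∧ ∀ z ∈ B, e ≤ f z := by
  classical
  induction B using Finset.induction_on with
  | empty => exact ⟨a, ha, le_rfl, by simp⟩
  | insert w B _ ih =>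
    obtain ⟨e, h1, h2, h3⟩ := ih fun z hz => h z (Finset.mem_insert_of_mem hz)
    refine ⟨min e (f w), lt_min h1 (h w (Finset.mem_insert_self _ _)),
      (min_le_left _ _).trans h2, fun z hz => ?_⟩
    rcases Finset.mem_insert.1 hz with rfl | hz
    · exact min_le_right _ _
    · exact (min_le_left _ _).trans (h3 z hz)

/-- A point of an open set in the closure of the points joined to `D` is joined to `D`. -/
theorem join_of_closure {G D : Set ℂ} (hG : IsOpen G) {u : ℂ} (hu : u ∈ G)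
    (h : u ∈ closure {y | ∃ w ∈ D, JoinedIn G y w}) : ∃ w ∈ D, JoinedIn G u w := by
  obtain ⟨η, hη, hb⟩ := Metric.isOpen_iff.1 hG u hu
  obtain ⟨v, hv, w, hw, hj⟩ := mem_closure_iff.1 h _ isOpen_ball (mem_ball_self hη)
  exact ⟨w, hw, ((((convex_ball u η).isPathConnected ⟨u, mem_ball_self hη⟩).joinedIn u
    (mem_ball_self hη) v hv).mono hb).trans hj⟩

theorem child {T : Set (Set ℂ)} {z : ℂ} {r ε t ξ : ℝ} {O : Set ℂ} {P : Prop} (hξ : 0 < ξ)
    (hε : ε ≤ 3) (ht : 0 ≤ t) (hO : ball z (5 / 4 * r) ⊆ O) (h : P → Zle T z r ε t) :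
    ∃ e > (0 : ℝ), ∃ F : Finset (ℂ × ℝ), (F.card : ℝ) ≤ t ∧
      (∀ p ∈ F, 0 ≤ p.2 ∧ p.2 < 3 ∧ closedBall p.1 p.2 ⊆ Free ξ T ∩ O) ∧
      (P → ∀ u ∈ Arm (Free e T) (ball z (31 / 20 * r))ᶜ z r, ∃ p ∈ F,
        u ∈ closure {y | ∃ w ∈ closedBall p.1 p.2, JoinedIn (Free ξ T ∩ O) y w}) := by
  classical
  by_cases hP : P
  · obtain ⟨e, he, k, x, ρ, d, h1, h2, h3⟩ := h hP ξ hξ
    refine ⟨e, he, Finset.univ.image fun i => (x i, ρ i), ?_, ?_, fun _ u hu => ?_⟩
    · have h4 : ((Finset.univ.image fun i => (x i, ρ i)).card : ℝ) ≤ ∑ _i : Fin k, (1 : ℝ) := by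
        simpa using (Finset.card_image_le (s := Finset.univ) (f := fun i => (x i, ρ i)))
      refine h4.trans (le_trans (Finset.sum_le_sum fun i _ => ?_) h1)
      have : (0 : ℝ) ≤ d i := Nat.cast_nonneg _
      linarith
    · intro p hp
      obtain ⟨i, -, rfl⟩ := Finset.mem_image.1 hp
      exact ⟨(h2 i).1, (h2 i).2.1.trans_le hε,
        (h2 i).2.2.trans (inter_subset_inter_right _ hO)⟩
    · obtain ⟨i, hi⟩ := mem_iUnion.1 (h3 hu)
      refine ⟨_, Finset.mem_image_of_mem _ (Finset.mem_univ i), closure_mono ?_ hi⟩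
      rintro y ⟨γ, g0, g1, g2, -⟩
      exact ⟨_, g1, joinedIn_iff_br.2 ⟨γ, g0, rfl, g2.trans (inter_subset_inter_right _ hO)⟩⟩
  · exact ⟨1, one_pos, ∅, by simpa using ht, by simp, fun h' => absurd h' hP⟩

end ZtwoA

open ZtwoA in
theorem p_ZTWO (hBLK : S_BLK) (hDMON : S_DMON) :
    S_ZTWO := by
  classical
  intro T L r ε s B t hT hL hr hLr hs1 hs2 hε hB ht ξ hξ
  have hr1 : 10 * r ≤ L * r := mul_le_mul_of_nonneg_right hL hr.le
  have hO : ∀ z ∈ B, ball z (5 / 4 * r) ⊆ ball (0 : ℂ) (5 / 4 * 1) := fun z hz =>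
    ball_subset_ball' (by rw [dist_zero_right]; linarith [(ht z hz).1])
  have h1 := fun z (hz : z ∈ B) => child hξ hε (ht z hz).2.1 (hO z hz) (ht z hz).2.2
  choose! e he F hF1 hF2 hF3 using h1
  obtain ⟨ξ', x1, x2, x3⟩ := exists_lb B e he (lt_min hξ (show 0 < L * r by linarith))
  set U := B.biUnion F with hU
  refine ⟨ξ', x1, U.card, fun i => (U.equivFin.symm i).1.1, fun i => (U.equivFin.symm i).1.2,
    fun _ => 1, ?_, fun i => ?_, ?_⟩
  · have h2 : (U.card : ℝ) ≤ ∑ z ∈ B, ((F z).card : ℝ) := by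
      exact_mod_cast Finset.card_biUnion_le
    have h3 := Finset.sum_le_sum hF1
    simp only [Nat.cast_one, Finset.sum_const, Finset.card_univ, Fintype.card_fin, nsmul_eq_mul]
    linarith
  · obtain ⟨z, hz, hp⟩ := Finset.mem_biUnion.1 (U.equivFin.symm i).2
    exact hF2 z hz _ hp
  · rintro y ⟨hy, w, hw, hj⟩
    have hw' : 31 / 20 ≤ ‖w‖ := by simpa using hw
    have hy' : ‖y‖ < 1 := by simpa using hy
    obtain ⟨γ, g0, g1, g2⟩ := joinedIn_iff_br.1 hj
    obtain ⟨γ', k0, k1, k2⟩ := hDMON.1 γ 0 s (by rw [g0, mem_closedBall_zero_iff]; linarith)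
      (fun h => by
        have := h ⟨1, g1⟩
        rw [mem_ball_zero_iff] at this
        linarith)
    have hyu : JoinedIn (Free ξ' T) y (γ' 1) :=
      joinedIn_iff_br.2 ⟨γ', k0.trans g0, rfl, k2.trans (inter_subset_left.trans g2)⟩
    have huw := hyu.symm.trans hj
    obtain ⟨z, hz, hu⟩ := hB _ k1
    have hd : 9 * (L * r) < dist w z := by
      have := norm_sub_norm_le w z
      rw [dist_eq_norm]
      linarith [(ht z hz).1]
    have hN : NoC T z (L * r) := hBLK T z (γ' 1) w (L * r) ξ' hT (by linarith)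
      (x2.trans (min_le_right _ _)) (ball_subset_closedBall (ball_subset_ball (by linarith) hu))
      (fun h => absurd (mem_closedBall.1 h) (not_le.2 hd)) huw
    have hξ' : Free ξ' T ⊆ Free ξ T := Free_mono (x2.trans (min_le_left _ _)) Subset.rfl
    have hsub : range γ' ⊆ Free ξ T ∩ ball 0 (5 / 4 * 1) := fun v hv =>
      ⟨hξ' (g2 (k2 hv).1), closedBall_subset_ball (by linarith) (k2 hv).2⟩
    obtain ⟨p, hp, hc⟩ := hF3 z hz hN (γ' 1) ⟨hu, w, fun h => by
      have := mem_ball.1 h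
      linarith, huw.mono (Free_mono (x3 z hz) Subset.rfl)⟩
    obtain ⟨v, hv, hjv⟩ := join_of_closure ((isOpen_Free ξ T).inter isOpen_ball)
      (hsub ⟨1, rfl⟩) hc
    obtain ⟨σ, s0, s1, s2⟩ := joinedIn_iff_br.1
      ((joinedIn_iff_br.2 ⟨γ', k0.trans g0, rfl, hsub⟩).trans hjv)
    refine mem_iUnion.2 ⟨U.equivFin ⟨p, Finset.mem_biUnion.2 ⟨z, hz, hp⟩⟩, subset_closure
      ⟨σ, s0, ?_, s2, (cov_ball 0 3).mono le_rfl (by simp)
        (s2.trans (inter_subset_right.trans (ball_subset_ball (by norm_num))))⟩⟩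
    simpa [s1] using hv

end Pool.Agent.P.MP_d66c6d_pr
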